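import Mathlib

/-!
# The numerical bound
-/

namespace H79.Hart3

theorem choose_le₁ (D : ℕ) : (2 * D + 1).choose (D - 1) ≤ 4 ^ D := by
  refine le_trans (Nat.choose_le_middle (D - 1) (2 * D + 1)) ?_
  have : (2 * D + 1) / 2 = D := by omega
  rw [this]
  exact Nat.choose_middle_le_pow D

theorem choose_le₂ (D : ℕ) : (2 * D + 2).choose D ≤ 2 * 4 ^ D := by
  rcases D with _ | D
  · simp
  · have h1 : (2 * (D + 1) + 2).choose (D + 1) =
        (2 * (D + 1) + 1).choose D + (2 * (D + 1) + 1).choose (D + 1) :=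
      Nat.choose_succ_succ _ _
    have h2 := choose_le₁ (D + 1)
    rw [Nat.add_sub_cancel] at h2
    have h3 := Nat.choose_middle_le_pow (D + 1)
    omega

theorem four_pow_ge {D : ℕ} (hD : 1 ≤ D) : D + 3 ≤ 4 ^ D := by
  induction D, hD using Nat.le_induction with
  | base => norm_num
  | succ n hn ih => rw [pow_succ]; omega

theorem bound {r D : ℕ} (hr : 1 ≤ r) (hD : 1 ≤ D) :
    2 + min r (D + 1) + (r * Nat.multichoose (2 + min r (D + 1)) D +
      r * (r * D) * Nat.multichoose (2 + min r (D + 1)) (D - 1)) ≤ 4 ^ D * (D + 3) * r ^ 2 := by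
  set k := min r (D + 1) with hk
  have hkD : k ≤ D + 1 := min_le_right _ _
  have h1 : Nat.multichoose (2 + k) D ≤ 2 * 4 ^ D := by
    rw [Nat.multichoose_eq]
    refine le_trans (Nat.choose_le_choose D ?_) (choose_le₂ D)
    omega
  have h2 : Nat.multichoose (2 + k) (D - 1) ≤ 4 ^ D := by
    rw [Nat.multichoose_eq]
    refine le_trans (Nat.choose_le_choose (D - 1) ?_) (choose_le₁ D)
    omega
  have h3 := four_pow_ge hD
  have h4 : r ≤ r ^ 2 := Nat.le_self_pow (by norm_num) r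
  have h5 : 1 ≤ r ^ 2 := le_trans hr h4
  have e1 : 2 + k ≤ 4 ^ D * r ^ 2 := by
    calc 2 + k ≤ 4 ^ D := by omega
      _ ≤ 4 ^ D * r ^ 2 := Nat.le_mul_of_pos_right _ h5
  have e2 : r * Nat.multichoose (2 + k) D ≤ 2 * 4 ^ D * r ^ 2 := by
    calc r * Nat.multichoose (2 + k) D ≤ r ^ 2 * (2 * 4 ^ D) := Nat.mul_le_mul h4 h1
      _ = 2 * 4 ^ D * r ^ 2 := by ring
  have e3 : r * (r * D) * Nat.multichoose (2 + k) (D - 1) ≤ D * 4 ^ D * r ^ 2 := by
    calc r * (r * D) * Nat.multichoose (2 + k) (D - 1) ≤ r * (r * D) * 4 ^ D :=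
        Nat.mul_le_mul_left _ h2
      _ = D * 4 ^ D * r ^ 2 := by ring
  calc _ ≤ 4 ^ D * r ^ 2 + (2 * 4 ^ D * r ^ 2 + D * 4 ^ D * r ^ 2) := by gcongr
    _ = _ := by ring

theorem bound' {r D : ℕ} (hr : 1 ≤ r) (hD : 1 ≤ D) :
    r * (D + 1) + 2 * r + 1 ≤ 4 ^ D * (D + 3) * r ^ 2 := by
  have h3 : 4 ≤ 4 ^ D := Nat.le_self_pow (by omega) 4
  have h4 : r ≤ r ^ 2 := Nat.le_self_pow (by norm_num) r
  calc r * (D + 1) + 2 * r + 1 = (D + 3) * r + 1 := by ring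
    _ ≤ (D + 3) * r ^ 2 + (D + 3) * r ^ 2 := by
        have : 1 ≤ (D + 3) * r ^ 2 := Nat.mul_pos (by omega) (by positivity)
        gcongr
    _ ≤ 4 * ((D + 3) * r ^ 2) := by omega
    _ ≤ 4 ^ D * ((D + 3) * r ^ 2) := Nat.mul_le_mul_right _ h3
    _ = _ := by ring

end H79.Hart3
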