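import Pool.Agent.H79.Hart3.Main
import Pool.Agent.H79.Hart3.Bound

/-!
# Hartshorne's conjecture for varieties defined by equations of bounded degree

Let `X ⊂ P^n` be a nonsingular irreducible closed subvariety of codimension `r ≥ 1` whose ideal
contains `r` forms of degree `≤ d` with independent differentials at one point of `X` (in other
words, `X` is a component of multiplicity one of an intersection of `r` hypersurfaces of degree
`≤ d`; for example, `X` may be cut out by any number of forms of degree `≤ d`).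
If `n + 1 ≥ 4^(d-1) (d+2) r²`, then `X` is a transversal intersection of `r` hypersurfaces of
degree `≤ d`.
-/

open MvPolynomial

namespace Pool.Agent.Results.MP_9a3fdb_ag.BoundedDegree

/-- The affine cone over the projective zero set of `I`: the common zeros of all `f ∈ I`. -/
def Cone {n : ℕ} (I : Ideal (MvPolynomial (Fin (n + 1)) ℂ)) : Set (Fin (n + 1) → ℂ) :=
  {x | ∀ f ∈ I, eval x f = 0}

/-- The differential of `f` at `x`, as the vector of its partial derivatives. -/
noncomputable def grad {n : ℕ} (f : MvPolynomial (Fin (n + 1)) ℂ) (x : Fin (n + 1) → ℂ) :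
    Fin (n + 1) → ℂ := fun i => eval x (pderiv i f)

/-- `I` is the homogeneous ideal of a nonsingular irreducible closed subvariety of `P^n` of
codimension `r`: a homogeneous prime ideal with `dim ℂ[x₀,…,xₙ]/I = n + 1 - r` whose elements have,
at every nonzero point of the cone, differentials spanning an `r`-dimensional space. -/
structure IsNonsingularVariety (n r : ℕ) (I : Ideal (MvPolynomial (Fin (n + 1)) ℂ)) : Prop where
  prime : I.IsPrime
  homogeneous : ∀ f ∈ I, ∀ d, homogeneousComponent d f ∈ I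
  dim : ringKrullDim (MvPolynomial (Fin (n + 1)) ℂ ⧸ I) + r = n + 1
  nonsingular : ∀ x ∈ Cone I, x ≠ 0 →
    Module.finrank ℂ (Submodule.span ℂ {v | ∃ f ∈ I, grad f x = v}) = r

theorem result (n r d : ℕ) (hr : 1 ≤ r) (hd : 2 ≤ d)
    (hn : 4 ^ (d - 1) * (d + 2) * r ^ 2 ≤ n + 1)
    (I : Ideal (MvPolynomial (Fin (n + 1)) ℂ)) (hX : IsNonsingularVariety n r I)
    -- `r` forms of degree `≤ d` in the ideal with independent differentials at one point
    (f : Fin r → MvPolynomial (Fin (n + 1)) ℂ) (hf : ∀ i, f i ∈ I)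
    (hfd : ∀ i, ∃ e ≤ d, (f i).IsHomogeneous e)
    (x : Fin (n + 1) → ℂ) (hx : x ∈ Cone I) (hx0 : x ≠ 0)
    (hli : LinearIndependent ℂ (fun i => grad (f i) x)) :
    ∃ F : Fin r → MvPolynomial (Fin (n + 1)) ℂ,
      (∀ i, F i ∈ I ∧ ∃ e ≤ d, (F i).IsHomogeneous e) ∧
      Cone I = {y | ∀ i, eval y (F i) = 0} ∧
      ∀ y ∈ Cone I, y ≠ 0 → LinearIndependent ℂ (fun i => grad (F i) y) := by
  have hN : ∀ x, Submodule.span ℂ {v | ∃ f ∈ I, grad f x = v} = H89.Hart.N I x := by
    intro x
    apply le_antisymm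
    · rw [Submodule.span_le]
      rintro v ⟨f, hf, rfl⟩
      exact H89.Hart.mem_N.2 ⟨f, hf, rfl⟩
    · intro v hv
      obtain ⟨f, hf, rfl⟩ := H89.Hart.mem_N.1 hv
      exact Submodule.subset_span ⟨f, hf, rfl⟩
  have hS : H89.Hart.Smooth I r :=
    { prime := hX.prime
      homog := hX.homogeneous
      rank := fun x hx hx0 => by rw [← hN]; exact hX.nonsingular x hx hx0 }
  choose e hed hfe using hfd
  obtain ⟨D, rfl⟩ : ∃ D, d = D + 1 := ⟨d - 1, by omega⟩
  rw [Nat.add_sub_cancel] at hn
  have hD : 1 ≤ D := by omega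
  obtain ⟨G, hG1, hG2, hG3, hG4⟩ := H79.Hart3.main (D := D) hr hS f hf e hfe hed hx hx0 hli
    (by rw [Fintype.card_fin]; exact (H79.Hart3.bound hr hD).trans hn)
    (by rw [Fintype.card_fin]; exact (H79.Hart3.bound' hr hD).trans hn)
  refine ⟨G, fun i => ⟨hG1 i, hG2 i⟩, ?_, hG4⟩
  apply Set.Subset.antisymm
  · intro y hy i
    exact hy _ (hG1 i)
  · intro y hy
    exact hG3 y hy

end Pool.Agent.Results.MP_9a3fdb_ag.BoundedDegree
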