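import Pool.Agent.H79.Hart.Defs

/-!
# Sections on a line of `X` which extend to larger linear subspaces of `X`
-/

open MvPolynomial

set_option linter.unusedSectionVars false

namespace H79.Hart3

open H89.Hart H79.Hart

variable {ι : Type*} [Fintype ι] [DecidableEq ι]

/-- The linear map `b ↦ b₀ p + b₁ u`. -/
noncomputable def lin2 (p u : ι → ℂ) : (Fin 2 → ℂ) →ₗ[ℂ] (ι → ℂ) where
  toFun b := b 0 • p + b 1 • u
  map_add' b c := by
    simp only [Pi.add_apply, add_smul]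
    abel
  map_smul' a b := by
    simp only [Pi.smul_apply, smul_eq_mul, RingHom.id_apply, smul_add, smul_smul]

theorem lin2_apply (p u : ι → ℂ) (b : Fin 2 → ℂ) : lin2 p u b = b 0 • p + b 1 • u := rfl

theorem lin2_single (p u : ι → ℂ) : lin2 p u (Pi.single 0 1) = p := by
  simp [lin2_apply]

/-- `r` vectors of forms `s i` of degrees `e i ≤ D` in `(b, w) ∈ ℂ² × ℂ^ι` which are sections of
the conormal spaces on every linear subspace `{b₀ p + b₁ u + w : w ∈ W}` of the cone on which the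
`c` forms `h` vanish, independent at `p`. -/
structure EF (I : Ideal (MvPolynomial ι ℂ)) (r D : ℕ) (p u : ι → ℂ) (c : ℕ) (e : Fin r → ℕ)
    (s : Fin r → ι → MvPolynomial (Fin 2 ⊕ ι) ℂ) (h : Fin c → MvPolynomial (Fin 2 ⊕ ι) ℂ) :
    Prop where
  le : ∀ i, e i ≤ D
  hs : ∀ i m, (s i m).IsHomogeneous (e i)
  hh : ∀ a, (h a).IsHomogeneous D
  hh0 : ∀ a (b : Fin 2 → ℂ), eval (Sum.elim b 0) (h a) = 0
  line : ∀ b, lin2 p u b ∈ cone I
  inj : Function.Injective (lin2 p u)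
  li : LinearIndependent ℂ (fun i => ev (s i) (Sum.elim (Pi.single 0 1) 0))
  good : ∀ W : Submodule ℂ (ι → ℂ), (∀ b, ∀ w ∈ W, lin2 p u b + w ∈ cone I) →
    (∀ a (b : Fin 2 → ℂ), ∀ w ∈ W, eval (Sum.elim b w) (h a) = 0) →
    ∀ i (b : Fin 2 → ℂ), ∀ w ∈ W, lin2 p u b + w ≠ 0 →
      ev (s i) (Sum.elim b w) ∈ N I (lin2 p u b + w)

end H79.Hart3
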