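import Pool.Agent.H79.Hart3.PrimeTa
import Pool.Agent.H79.Hart.Tangent
import Pool.Agent.H79.Hart.Order

/-!
# Extension of sections along a coordinate subspace to elements of the ideal

Only the degrees `≤ D + 1` in the normal variables are used, so that `min r (D + 1) + 2` variables
along the subspace suffice.
-/

open MvPolynomial

set_option linter.unusedSectionVars false

namespace H79.Hart3

open H89.Hart H79.Hart

theorem hc_mul {σ : Type*} {δ : MvPolynomial σ ℂ} {n : ℕ} (hδ : δ.IsHomogeneous n)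
    (b : MvPolynomial σ ℂ) (k : ℕ) :
    homogeneousComponent (n + k) (δ * b) = δ * homogeneousComponent k b := by
  have h1 : ∀ i, homogeneousComponent (n + k) (δ * homogeneousComponent i b) =
      if n + k = n + i then δ * homogeneousComponent i b else 0 := fun i =>
    homogeneousComponent_of_mem (hδ.mul (homogeneousComponent_isHomogeneous i b))
  conv_lhs => rw [← sum_homogeneousComponent b]
  rw [Finset.mul_sum, map_sum]
  simp_rw [h1]
  by_cases h2 : k ≤ b.totalDegree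
  · rw [Finset.sum_eq_single k]
    · rw [if_pos rfl]
    · intro i _ hi
      rw [if_neg (by omega)]
    · intro hm
      exact absurd (Finset.mem_range.2 (by omega)) hm
  · rw [homogeneousComponent_eq_zero _ _ (by omega), mul_zero]
    refine Finset.sum_eq_zero fun i hi => ?_
    have := Finset.mem_range.1 hi
    rw [if_neg (by omega)]

section

variable {α μ : Type*} [Fintype α] [DecidableEq α] [Fintype μ] [DecidableEq μ]

theorem zc_mem_Fil (a : ℕ) (f : MvPolynomial (α ⊕ μ) ℂ) : zc a f ∈ Fil α μ a := by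
  rw [mem_Fil]
  intro b hb
  rw [zc_zc, if_neg hb.ne]

theorem Fil_anti {a b : ℕ} (h : a ≤ b) : Fil α μ b ≤ Fil α μ a := by
  intro f hf
  rw [mem_Fil] at hf ⊢
  exact fun c hc => hf c (by omega)

theorem zc_sum {γ : Type*} (s : Finset γ) (f : γ → MvPolynomial (α ⊕ μ) ℂ) (b : ℕ) :
    zc b (∑ c ∈ s, f c) = ∑ c ∈ s, zc b (f c) := by
  simp only [zc, map_sum, Polynomial.finsetSum_coeff]

theorem zc_of_Fil {a b : ℕ} (h : b < a) {f : MvPolynomial (α ⊕ μ) ℂ} (hf : f ∈ Fil α μ a) :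
    zc b f = 0 := mem_Fil.1 hf b h

theorem TT_mem_Fil (t : μ → MvPolynomial α ℂ) : TT t ∈ Fil α μ 1 := by
  rw [mem_Fil]
  intro b hb
  rw [zc_TT, if_neg (by omega)]

theorem zc_mem_JT_of_mem {r : ℕ} {t : Fin r → μ → MvPolynomial α ℂ}
    {x : MvPolynomial (α ⊕ μ) ℂ} (hx : x ∈ JT t) (b : ℕ) : zc b x ∈ JT t := by
  obtain ⟨c, rfl⟩ := (Ideal.mem_span_range_iff_exists_fun).1 hx
  rw [zc_sum]
  refine Ideal.sum_mem _ fun i _ => ?_
  rcases b with _ | b
  · have h1 : c i * TT (t i) ∈ Fil α μ 1 := Ideal.mul_mem_left _ _ (TT_mem_Fil (t i))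
    rw [zc_of_Fil (by omega) h1]
    exact zero_mem _
  · rw [zc_mul_TT]
    exact Ideal.mul_mem_left _ _ (Ideal.subset_span ⟨i, rfl⟩)

/-- `H` agrees with an element of `I` up to order `a` where `x_a₀` or `x_a₁` is invertible. -/
def Ord (I : Ideal (MvPolynomial (α ⊕ μ) ℂ)) (a₀ a₁ : α) (a : ℕ)
    (H : MvPolynomial (α ⊕ μ) ℂ) : Prop :=
  ∃ M : ℕ, X (Sum.inl a₀) ^ M * H ∈ I ⊔ Fil α μ a ∧ X (Sum.inl a₁) ^ M * H ∈ I ⊔ Fil α μ a

theorem T_nzd_pow {r : ℕ} (t : Fin r → μ → MvPolynomial α ℂ)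
    (hli : ∀ m, m ≠ 0 → LinearIndependent ℂ (fun i => fun j => eval m (t i j))) {a : ℕ}
    (hq : min r a + 1 ≤ Fintype.card α) (c : α) (M : ℕ) {f : MvPolynomial (α ⊕ μ) ℂ}
    (hfa : zc a f = f) (hf : X (Sum.inl c) ^ M * f ∈ JT t) : f ∈ JT t := by
  induction M with
  | zero => simpa using hf
  | succ M ih =>
    rw [pow_succ', mul_assoc] at hf
    exact ih (T_nzd' t hli hq c (by rw [zc_inl_mul, hfa]) hf)

theorem T_nzd₂_pow {r : ℕ} (t : Fin r → μ → MvPolynomial α ℂ)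
    (hli : ∀ m, m ≠ 0 → LinearIndependent ℂ (fun i => fun j => eval m (t i j))) {a : ℕ}
    (hq : min r a + 2 ≤ Fintype.card α) {b c : α} (hbc : b ≠ c) (M : ℕ)
    {f : MvPolynomial (α ⊕ μ) ℂ} (hfa : zc a f = f)
    (hf : X (Sum.inl c) ^ M * f ∈ JT t ⊔ Ideal.span {X (Sum.inl b)}) :
    f ∈ JT t ⊔ Ideal.span {X (Sum.inl b)} := by
  induction M with
  | zero => simpa using hf
  | succ M ih =>
    rw [pow_succ', mul_assoc] at hf
    exact ih (T_nzd₂' t hli hq hbc (by rw [zc_inl_mul, hfa]) hf)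

/-- `x_c^M u ∈ (T, x_b^N)` implies `u ∈ (T, x_b^N)`. -/
theorem T_colon {r : ℕ} (t : Fin r → μ → MvPolynomial α ℂ)
    (hli : ∀ m, m ≠ 0 → LinearIndependent ℂ (fun i => fun j => eval m (t i j))) {a : ℕ}
    (hq : min r a + 2 ≤ Fintype.card α) {b c : α} (hbc : b ≠ c) (M N : ℕ)
    {u v : MvPolynomial (α ⊕ μ) ℂ} (hu : zc a u = u) (hv : zc a v = v)
    (hf : X (Sum.inl c) ^ M * u - X (Sum.inl b) ^ N * v ∈ JT t) :
    ∃ h : MvPolynomial (α ⊕ μ) ℂ, zc a h = h ∧ u - X (Sum.inl b) ^ N * h ∈ JT t := by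
  have key : ∀ k, k ≤ N → ∃ h : MvPolynomial (α ⊕ μ) ℂ, zc a h = h ∧
      u - X (Sum.inl b) ^ k * h ∈ JT t := by
    intro k
    induction k with
    | zero => intro _; exact ⟨u, hu, by simp⟩
    | succ k ih =>
      intro hk
      obtain ⟨h, hha, hh⟩ := ih (by omega)
      obtain ⟨n, hn⟩ : ∃ n, N = k + (n + 1) := ⟨N - k - 1, by omega⟩
      have h1 : X (Sum.inl b) ^ k * (X (Sum.inl c) ^ M * h - X (Sum.inl b) ^ (n + 1) * v)
          ∈ JT t := by
        have h2 := Ideal.sub_mem _ hf (Ideal.mul_mem_left _ (X (Sum.inl c) ^ M) hh)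
        have e : X (Sum.inl c) ^ M * u - X (Sum.inl b) ^ N * v -
            X (Sum.inl c) ^ M * (u - X (Sum.inl b) ^ k * h) =
            X (Sum.inl b) ^ k * (X (Sum.inl c) ^ M * h -
              X (Sum.inl b) ^ (n + 1) * v) := by
          rw [hn, pow_add]; ring
        rwa [e] at h2
      have h3 := T_nzd_pow t hli (a := a) (by omega) b k
        (by rw [zc_sub, zc_inl_mul, zc_inl_mul, hha, hv]) h1
      have h4 : X (Sum.inl c) ^ M * h ∈ JT t ⊔ Ideal.span {X (Sum.inl b)} := by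
        have h5 := Ideal.add_mem _ (Ideal.mem_sup_left h3 : _ ∈ JT t ⊔ Ideal.span {X (Sum.inl b)})
          (Ideal.mem_sup_right (Ideal.mul_mem_right (X (Sum.inl b) ^ n * v) _
            (Ideal.mem_span_singleton_self (X (Sum.inl b)))))
        have e : X (Sum.inl c) ^ M * h - X (Sum.inl b) ^ (n + 1) * v +
            X (Sum.inl b) * (X (Sum.inl b) ^ n * v) = X (Sum.inl c) ^ M * h := by
          rw [pow_succ]; ring
        rwa [e] at h5
      obtain ⟨x, hx, y, hy, hxy⟩ := Submodule.mem_sup.1 (T_nzd₂_pow t hli hq hbc M hha h4)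
      obtain ⟨y', rfl⟩ := Ideal.mem_span_singleton.1 hy
      have hxy' : zc a x + X (Sum.inl b) * zc a y' = h := by
        have h6 := congrArg (zc a) hxy
        rw [zc_add, hha] at h6
        have h7 := zc_inl_mul a 1 b y'
        rw [pow_one] at h7
        rw [← h7, h6]
      refine ⟨zc a y', by rw [zc_zc, if_pos rfl], ?_⟩
      have e : u - X (Sum.inl b) ^ (k + 1) * zc a y' =
          (u - X (Sum.inl b) ^ k * h) + X (Sum.inl b) ^ k * zc a x := by
        rw [← hxy']; ring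
      rw [e]
      exact Ideal.add_mem _ hh (Ideal.mul_mem_left _ _ (zc_mem_JT_of_mem hx a))
  exact key N le_rfl

variable {I : Ideal (MvPolynomial (α ⊕ μ) ℂ)} {r : ℕ}

/-- elements of `(T)` agree with elements of `I` up to one order more. -/
theorem order_JT (hI : Smooth I r) (hL : ∀ m : α → ℂ, (Sum.elim m 0 : α ⊕ μ → ℂ) ∈ cone I)
    (t : Fin r → μ → MvPolynomial α ℂ)
    (ht : ∀ i, ∀ m : α → ℂ, m ≠ 0 →
      (Sum.elim 0 (fun j => eval m (t i j)) : α ⊕ μ → ℂ) ∈ N I (Sum.elim m 0))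
    (a : α) {x : MvPolynomial (α ⊕ μ) ℂ} (hx : x ∈ JT t) (b : ℕ) :
    ∃ M : ℕ, X (Sum.inl a) ^ M * zc (b + 1) x ∈ I ⊔ Fil α μ (b + 2) := by
  choose M hM using fun i => T_order hI hL (t i) (ht i) a
  obtain ⟨c, rfl⟩ := (Ideal.mem_span_range_iff_exists_fun).1 hx
  refine ⟨∑ i, M i, ?_⟩
  rw [zc_sum, Finset.mul_sum]
  refine Ideal.sum_mem _ fun i _ => ?_
  rw [zc_mul_TT]
  obtain ⟨n, hn⟩ : ∃ n, ∑ i, M i = n + M i := by
    have : M i ≤ ∑ i, M i := Finset.single_le_sum (fun i _ => Nat.zero_le _) (Finset.mem_univ i)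
    exact ⟨_, (Nat.sub_add_cancel this).symm⟩
  obtain ⟨f, hf, g, hg, hfg⟩ := Submodule.mem_sup.1 (hM i)
  have e : X (Sum.inl a) ^ (∑ i, M i) * (zc b (c i) * TT (t i)) =
      X (Sum.inl a) ^ n * zc b (c i) * f + X (Sum.inl a) ^ n * (zc b (c i) * g) := by
    rw [hn, pow_add]
    have : X (Sum.inl a) ^ n * X (Sum.inl a) ^ M i * (zc b (c i) * TT (t i)) =
      X (Sum.inl a) ^ n * zc b (c i) * (X (Sum.inl a) ^ M i * TT (t i)) := by ring
    rw [this, ← hfg]
    ring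
  rw [e]
  refine Ideal.add_mem _ (Ideal.mem_sup_left (I.mul_mem_left _ hf)) (Ideal.mem_sup_right ?_)
  exact Ideal.mul_mem_left _ _ (Fil_mul (zc_mem_Fil b (c i)) hg)

/-- The initial forms of elements of `I` lie in `(T)`. -/
theorem zc_mem_JT (hI : Smooth I r) (hL : ∀ m : α → ℂ, (Sum.elim m 0 : α ⊕ μ → ℂ) ∈ cone I)
    {a : ℕ} (hq : min r a + 1 ≤ Fintype.card α) (t : Fin r → μ → MvPolynomial α ℂ)
    (ht : ∀ i, ∀ m : α → ℂ, m ≠ 0 →
      (Sum.elim 0 (fun j => eval m (t i j)) : α ⊕ μ → ℂ) ∈ N I (Sum.elim m 0))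
    (hli : ∀ m, m ≠ 0 → LinearIndependent ℂ (fun i => fun j => eval m (t i j)))
    {w : MvPolynomial (α ⊕ μ) ℂ} (hw : w ∈ I) (hwa : w ∈ Fil α μ a) :
    zc a w ∈ JT t := by
  refine T_vanish' t hli hq (by rw [zc_zc, if_pos rfl]) fun m z hm hz => ?_
  refine tangent_cone hI hw hwa (hL m) hm fun s hs => ?_
  have hm0 : (Sum.elim m 0 : α ⊕ μ → ℂ) ≠ 0 := by
    intro h
    apply hm
    funext a
    exact congrFun h (Sum.inl a)
  have hli2 : LinearIndependent ℂ
      (fun i => (Sum.elim 0 (fun j => eval m (t i j)) : α ⊕ μ → ℂ)) := by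
    rw [Fintype.linearIndependent_iff]
    intro c hc
    refine Fintype.linearIndependent_iff.1 (hli m hm) c ?_
    funext j
    have := congrFun hc (Sum.inr j)
    simpa [Finset.sum_apply] using this
  have hspan : Submodule.span ℂ (Set.range
      (fun i => (Sum.elim 0 (fun j => eval m (t i j)) : α ⊕ μ → ℂ))) = N I (Sum.elim m 0) := by
    apply Submodule.eq_of_le_of_finrank_eq
    · rw [Submodule.span_le]
      rintro _ ⟨i, rfl⟩
      exact ht i m hm
    · rw [finrank_span_eq_card hli2, Fintype.card_fin, hI.rank _ (hL m) hm0]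
  rw [← hspan] at hs
  obtain ⟨c, rfl⟩ := (Submodule.mem_span_range_iff_exists_fun ℂ).1 hs
  rw [sum_dotProduct]
  refine Finset.sum_eq_zero fun i _ => ?_
  have h1 : (Sum.elim 0 (fun j => eval m (t i j)) : α ⊕ μ → ℂ) ⬝ᵥ (Sum.elim 0 z : α ⊕ μ → ℂ) =
      eval (Sum.elim m z) (TT (t i)) := by
    simp only [dotProduct, Fintype.sum_sum_type, Sum.elim_inl, Sum.elim_inr, Pi.zero_apply,
      zero_mul, Finset.sum_const_zero, zero_add, TT, map_sum, map_mul, eval_X, eval_rename]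
    refine Finset.sum_congr rfl fun j _ => ?_
    congr 1
  rw [smul_dotProduct, h1, hz i, smul_zero]

/-- One step of the extension. -/
theorem ext_step (hI : Smooth I r) (hL : ∀ m : α → ℂ, (Sum.elim m 0 : α ⊕ μ → ℂ) ∈ cone I)
    (b : ℕ) (hq : min r (b + 1) + 2 ≤ Fintype.card α) (t : Fin r → μ → MvPolynomial α ℂ)
    (ht : ∀ i, ∀ m : α → ℂ, m ≠ 0 →
      (Sum.elim 0 (fun j => eval m (t i j)) : α ⊕ μ → ℂ) ∈ N I (Sum.elim m 0))
    (hli : ∀ m, m ≠ 0 → LinearIndependent ℂ (fun i => fun j => eval m (t i j)))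
    {a₀ a₁ : α} (hab : a₀ ≠ a₁) {H : MvPolynomial (α ⊕ μ) ℂ}
    (hH : Ord I a₀ a₁ (b + 1) H) :
    ∃ P ∈ Fil α μ (b + 1), Ord I a₀ a₁ (b + 2) (H - P) := by
  obtain ⟨M, h0, h1⟩ := hH
  obtain ⟨f, hf, p, hp, hfp⟩ := Submodule.mem_sup.1 h0
  obtain ⟨g, hg, p', hp', hgp⟩ := Submodule.mem_sup.1 h1
  set m₀ : MvPolynomial (α ⊕ μ) ℂ := X (Sum.inl a₀) with hm₀
  set m₁ : MvPolynomial (α ⊕ μ) ℂ := X (Sum.inl a₁) with hm₁
  have hwI : m₁ ^ M * p - m₀ ^ M * p' ∈ I := by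
    have e : m₁ ^ M * p - m₀ ^ M * p' = m₀ ^ M * g - m₁ ^ M * f := by
      have e1 : p = m₀ ^ M * H - f := by rw [← hfp]; ring
      have e2 : p' = m₁ ^ M * H - g := by rw [← hgp]; ring
      rw [e1, e2]; ring
    rw [e]
    exact I.sub_mem (I.mul_mem_left _ hg) (I.mul_mem_left _ hf)
  have hwF : m₁ ^ M * p - m₀ ^ M * p' ∈ Fil α μ (b + 1) :=
    Ideal.sub_mem _ (Ideal.mul_mem_left _ _ hp) (Ideal.mul_mem_left _ _ hp')
  have hw := zc_mem_JT hI hL (by omega) t ht hli hwI hwF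
  rw [zc_sub, hm₀, hm₁, zc_inl_mul, zc_inl_mul, ← hm₀, ← hm₁] at hw
  obtain ⟨P, hPP, hh⟩ := T_colon t hli hq hab M M (by rw [zc_zc, if_pos rfl])
    (by rw [zc_zc, if_pos rfl]) hw
  -- the correction
  have hP1 : zc (b + 1) (zc (b + 1) p - m₀ ^ M * P) = zc (b + 1) p - m₀ ^ M * P := by
    rw [zc_sub, zc_zc, if_pos rfl, hm₀, zc_inl_mul, hPP]
  obtain ⟨M₁, hM₁⟩ := order_JT hI hL t ht a₀ hh b
  have hP1' := hP1
  rw [← hm₀] at hM₁
  rw [hP1] at hM₁
  have hPF : P ∈ Fil α μ (b + 1) := by rw [← hPP]; exact zc_mem_Fil _ _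
  have hcJ : zc (b + 1) p' - m₁ ^ M * P ∈ JT t := by
    refine T_nzd_pow t hli (by omega) a₀ M (a := b + 1) ?_ ?_
    · rw [zc_sub, zc_zc, if_pos rfl, hm₁, zc_inl_mul, hPP]
    have e : X (Sum.inl a₀) ^ M * (zc (b + 1) p' - m₁ ^ M * P) =
        m₁ ^ M * (zc (b + 1) p - m₀ ^ M * P) -
          (m₁ ^ M * zc (b + 1) p - m₀ ^ M * zc (b + 1) p') := by
      rw [← hm₀]; ring
    rw [e]
    exact Ideal.sub_mem _ (Ideal.mul_mem_left _ _ hh) hw
  obtain ⟨M₂, hM₂⟩ := order_JT hI hL t ht a₁ hcJ b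
  have hzc : zc (b + 1) (zc (b + 1) p' - m₁ ^ M * P) = zc (b + 1) p' - m₁ ^ M * P := by
    rw [zc_sub, zc_zc, if_pos rfl, hm₁, zc_inl_mul, hPP]
  rw [hzc] at hM₂
  refine ⟨P, hPF, M + M₁ + M₂, ?_, ?_⟩
  · have e : m₀ ^ (M + M₁ + M₂) * (H - P) = m₀ ^ (M₁ + M₂) * f +
        (m₀ ^ (M₁ + M₂) * (p - zc (b + 1) p) +
          m₀ ^ M₂ * (m₀ ^ M₁ * (zc (b + 1) p - m₀ ^ M * P))) := by
      have e1 : m₀ ^ (M + M₁ + M₂) * (H - P) =
          m₀ ^ (M₁ + M₂) * (m₀ ^ M * H - m₀ ^ M * P) := by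
        rw [pow_add, pow_add, pow_add]; ring
      rw [e1, ← hfp, pow_add]
      ring
    rw [e]
    refine Ideal.add_mem _ (Ideal.mem_sup_left (I.mul_mem_left _ hf)) (Ideal.add_mem _ ?_ ?_)
    · exact Ideal.mem_sup_right (Ideal.mul_mem_left _ _ (sub_zc_mem hp))
    · exact Ideal.mul_mem_left _ _ hM₁
  · have e : m₁ ^ (M + M₁ + M₂) * (H - P) = m₁ ^ (M₁ + M₂) * g +
        (m₁ ^ (M₁ + M₂) * (p' - zc (b + 1) p') +
          m₁ ^ M₁ * (m₁ ^ M₂ * (zc (b + 1) p' - m₁ ^ M * P))) := by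
      have e1 : m₁ ^ (M + M₁ + M₂) * (H - P) =
          m₁ ^ (M₁ + M₂) * (m₁ ^ M * H - m₁ ^ M * P) := by
        rw [pow_add, pow_add, pow_add]; ring
      rw [e1, ← hgp, pow_add]
      ring
    rw [e]
    refine Ideal.add_mem _ (Ideal.mem_sup_left (I.mul_mem_left _ hg)) (Ideal.add_mem _ ?_ ?_)
    · exact Ideal.mem_sup_right (Ideal.mul_mem_left _ _ (sub_zc_mem hp'))
    · exact Ideal.mul_mem_left _ _ hM₂

theorem Ord_hc (hI : Smooth I r) {a₀ a₁ : α} {a : ℕ} {H : MvPolynomial (α ⊕ μ) ℂ}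
    (hH : Ord I a₀ a₁ a H) (d : ℕ) : Ord I a₀ a₁ a (homogeneousComponent d H) := by
  have key : ∀ (c : α) (M : ℕ), X (Sum.inl c) ^ M * H ∈ I ⊔ Fil α μ a →
      X (Sum.inl c) ^ M * homogeneousComponent d H ∈ I ⊔ Fil α μ a := by
    intro c M hM
    rw [← hc_mul (isHomogeneous_X_pow (R := ℂ) (Sum.inl c) M)]
    obtain ⟨f, hf, g, hg, hfg⟩ := Submodule.mem_sup.1 hM
    rw [← hfg, map_add]
    exact Ideal.add_mem _ (Ideal.mem_sup_left (hI.homog f hf _))
      (Ideal.mem_sup_right (Fil_homog hg _))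
  obtain ⟨M, h0, h1⟩ := hH
  exact ⟨M, key a₀ M h0, key a₁ M h1⟩

/-- The sections extend to forms which agree with elements of `I` up to order `D + 2`. -/
theorem ext_ord (hI : Smooth I r) (hL : ∀ m : α → ℂ, (Sum.elim m 0 : α ⊕ μ → ℂ) ∈ cone I)
    (D : ℕ) (hq : min r (D + 1) + 2 ≤ Fintype.card α) (t : Fin r → μ → MvPolynomial α ℂ)
    (e : Fin r → ℕ) (hth : ∀ i j, (t i j).IsHomogeneous (e i))
    (ht : ∀ i, ∀ m : α → ℂ, m ≠ 0 →
      (Sum.elim 0 (fun j => eval m (t i j)) : α ⊕ μ → ℂ) ∈ N I (Sum.elim m 0))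
    (hli : ∀ m, m ≠ 0 → LinearIndependent ℂ (fun i => fun j => eval m (t i j)))
    {a₀ a₁ : α} (hab : a₀ ≠ a₁) (i : Fin r) :
    ∃ G : MvPolynomial (α ⊕ μ) ℂ, G.IsHomogeneous (e i + 1) ∧ G - TT (t i) ∈ Fil α μ 2 ∧
      Ord I a₀ a₁ (D + 2) G := by
  have hTh : (TT (t i)).IsHomogeneous (e i + 1) := by
    refine IsHomogeneous.sum _ _ _ fun j _ => ?_
    exact ((hth i j).rename_isHomogeneous).mul (isHomogeneous_X ℂ _)
  have hT : Ord I a₀ a₁ 2 (TT (t i)) := by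
    obtain ⟨M₀, h0⟩ := T_order hI hL (t i) (ht i) a₀
    obtain ⟨M₁, h1⟩ := T_order hI hL (t i) (ht i) a₁
    refine ⟨M₀ + M₁, ?_, ?_⟩
    · rw [add_comm, pow_add, mul_assoc]
      exact Ideal.mul_mem_left _ _ h0
    · rw [pow_add, mul_assoc]
      exact Ideal.mul_mem_left _ _ h1
  have step : ∀ n, n ≤ D → ∃ H : MvPolynomial (α ⊕ μ) ℂ, H.IsHomogeneous (e i + 1) ∧
      H - TT (t i) ∈ Fil α μ 2 ∧ Ord I a₀ a₁ (n + 2) H := by
    intro n
    induction n with
    | zero => intro _; exact ⟨TT (t i), hTh, by simp, hT⟩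
    | succ n ih =>
      intro hn
      obtain ⟨H, hHh, hH2, hH⟩ := ih (by omega)
      obtain ⟨P, hP, hHP⟩ := ext_step hI hL (n + 1) (by omega) t ht hli hab hH
      refine ⟨H - homogeneousComponent (e i + 1) P, ?_, ?_, ?_⟩
      · exact hHh.sub (homogeneousComponent_isHomogeneous _ _)
      · have e1 : H - homogeneousComponent (e i + 1) P - TT (t i) =
            (H - TT (t i)) - homogeneousComponent (e i + 1) P := by ring
        rw [e1]
        exact Ideal.sub_mem _ hH2 (Fil_anti (by omega) (Fil_homog hP _))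
      · have h1 := Ord_hc hI hHP (e i + 1)
        rw [map_sub, homogeneousComponent_of_mem hHh, if_pos rfl] at h1
        exact h1
  exact step D le_rfl

/-- Forms of degree `D + 1` in `I` lie in the ideal generated by the extensions. -/
theorem mem_span_ext (hI : Smooth I r) (hL : ∀ m : α → ℂ, (Sum.elim m 0 : α ⊕ μ → ℂ) ∈ cone I)
    (D : ℕ) (hq : min r (D + 1) + 2 ≤ Fintype.card α) (t : Fin r → μ → MvPolynomial α ℂ)
    (ht : ∀ i, ∀ m : α → ℂ, m ≠ 0 →
      (Sum.elim 0 (fun j => eval m (t i j)) : α ⊕ μ → ℂ) ∈ N I (Sum.elim m 0))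
    (hli : ∀ m, m ≠ 0 → LinearIndependent ℂ (fun i => fun j => eval m (t i j)))
    {a₀ a₁ : α} (G : Fin r → MvPolynomial (α ⊕ μ) ℂ)
    (hGh : ∀ i, ∃ d, (G i).IsHomogeneous d) (hGT : ∀ i, G i - TT (t i) ∈ Fil α μ 2)
    (hGO : ∀ i, Ord I a₀ a₁ (D + 2) (G i)) {f : MvPolynomial (α ⊕ μ) ℂ} (hf : f ∈ I)
    (hfh : f.IsHomogeneous (D + 1)) : f ∈ Ideal.span (Set.range G) := by
  set J := Ideal.span (Set.range G) with hJ
  have hJh : ∀ g ∈ J, ∀ d, homogeneousComponent d g ∈ J := by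
    intro g hg d
    obtain ⟨c, rfl⟩ := (Ideal.mem_span_range_iff_exists_fun).1 hg
    rw [map_sum]
    refine Ideal.sum_mem _ fun i _ => ?_
    obtain ⟨e, he⟩ := hGh i
    rw [mul_comm]
    rcases le_or_gt e d with hed | hed
    · obtain ⟨k, rfl⟩ := Nat.exists_eq_add_of_le hed
      rw [hc_mul he]
      exact Ideal.mul_mem_right _ _ (Ideal.subset_span ⟨i, rfl⟩)
    · have h0 : homogeneousComponent d (G i * c i) = 0 := by
        conv_lhs => rw [← sum_homogeneousComponent (c i), Finset.mul_sum, map_sum]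
        refine Finset.sum_eq_zero fun k _ => ?_
        rw [homogeneousComponent_of_mem (he.mul (homogeneousComponent_isHomogeneous k (c i))),
          if_neg (by omega)]
      rw [h0]
      exact Ideal.zero_mem _
  -- elements of `J` are in `I` up to order `D + 2`
  have hJO : ∀ g ∈ J, ∃ M : ℕ, X (Sum.inl a₀) ^ M * g ∈ I ⊔ Fil α μ (D + 2) := by
    intro g hg
    obtain ⟨c, rfl⟩ := (Ideal.mem_span_range_iff_exists_fun).1 hg
    choose M hM using hGO
    refine ⟨∑ i, M i, ?_⟩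
    rw [Finset.mul_sum]
    refine Ideal.sum_mem _ fun i _ => ?_
    obtain ⟨n, hn⟩ : ∃ n, ∑ i, M i = n + M i := by
      have : M i ≤ ∑ i, M i := Finset.single_le_sum (fun i _ => Nat.zero_le _) (Finset.mem_univ i)
      exact ⟨_, (Nat.sub_add_cancel this).symm⟩
    have e : X (Sum.inl a₀) ^ (∑ i, M i) * (c i * G i) =
        X (Sum.inl a₀) ^ n * c i * (X (Sum.inl a₀) ^ M i * G i) := by
      rw [hn, pow_add]; ring
    rw [e]
    exact Ideal.mul_mem_left _ _ (hM i).1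
  have step : ∀ a, a ≤ D + 1 → ∃ g ∈ J, f - g ∈ Fil α μ (a + 1) := by
    intro a
    induction a with
    | zero =>
      intro _
      refine ⟨0, J.zero_mem, ?_⟩
      rw [sub_zero, mem_Fil]
      intro b hb
      obtain rfl : b = 0 := by omega
      apply MvPolynomial.funext
      intro x
      have hx : x = Sum.elim (fun i => x (Sum.inl i)) (fun j => x (Sum.inr j)) := by
        funext i
        rcases i with i | i <;> rfl
      rw [hx, eval_zc, coeff_zero_ln, map_zero]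
      exact hL _ f hf
    | succ a ih =>
      intro ha
      obtain ⟨g, hg, hfg⟩ := ih (by omega)
      obtain ⟨M, hM⟩ := hJO g hg
      -- the initial form of `f - g`
      have h0 : zc (a + 1) (f - g) ∈ JT t := by
        have h1 : X (Sum.inl a₀) ^ M * (f - g) ∈ I ⊔ Fil α μ (D + 2) := by
          rw [mul_sub]
          exact Ideal.sub_mem _ (Ideal.mem_sup_left (I.mul_mem_left _ hf)) hM
        obtain ⟨x, hx, y, hy, hxy⟩ := Submodule.mem_sup.1 h1
        have hxF : x ∈ Fil α μ (a + 1) := by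
          have e : x = X (Sum.inl a₀) ^ M * (f - g) - y := by rw [← hxy]; ring
          rw [e]
          exact Ideal.sub_mem _ (Ideal.mul_mem_left _ _ hfg) (Fil_anti (by omega) hy)
        have h2 := zc_mem_JT hI hL (by omega) t ht hli hx hxF
        refine T_nzd_pow t hli (a := a + 1) (by omega) a₀ M (by rw [zc_zc, if_pos rfl]) ?_
        rw [← zc_inl_mul, ← hxy, zc_add, zc_of_Fil (by omega) hy, add_zero]
        exact h2
      obtain ⟨c, hc⟩ := (Ideal.mem_span_range_iff_exists_fun).1 h0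
      have h1 : zc (a + 1) (f - g) = ∑ i, zc a (c i) * TT (t i) := by
        have h2 : zc (a + 1) (zc (a + 1) (f - g)) = zc (a + 1) (f - g) := by
          rw [zc_zc, if_pos rfl]
        rw [← h2, ← hc, zc_sum]
        exact Finset.sum_congr rfl fun i _ => zc_mul_TT _ _ _
      refine ⟨g + ∑ i, zc a (c i) * G i, ?_, ?_⟩
      · exact J.add_mem hg (Ideal.sum_mem _ fun i _ =>
          Ideal.mul_mem_left _ _ (Ideal.subset_span ⟨i, rfl⟩))
      · have e1 : f - (g + ∑ i, zc a (c i) * G i) = ((f - g) - zc (a + 1) (f - g)) -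
            ∑ i, zc a (c i) * (G i - TT (t i)) := by
          rw [h1]
          simp only [mul_sub, Finset.sum_sub_distrib]
          ring
        rw [e1]
        refine Ideal.sub_mem _ (sub_zc_mem hfg) (Ideal.sum_mem _ fun i _ => ?_)
        have h3 := Fil_mul (zc_mem_Fil a (c i)) (hGT i)
        exact h3
  obtain ⟨g, hg, hfg⟩ := step (D + 1) le_rfl
  have h1 := Fil_homog hfg (D + 1)
  rw [map_sub, homogeneousComponent_of_mem hfh, if_pos rfl] at h1
  have h2 := Fil_eq_zero (by omega) h1 (hfh.sub (homogeneousComponent_isHomogeneous (D + 1) g))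
  rw [sub_eq_zero] at h2
  rw [h2]
  exact hJh g hg (D + 1)

theorem dif_of_Fil {f : MvPolynomial (α ⊕ μ) ℂ} (hf : f ∈ Fil α μ 2) (m : α → ℂ) :
    dif f (Sum.elim m 0) = 0 := by
  funext i
  have h1 := pderiv_mem_pow (Sum.elim m 0 : α ⊕ μ → ℂ) i 1 f (Fil_le_pow 2 m hf)
  rw [pow_one] at h1
  exact mem_mI.1 h1

theorem dif_TT (t : μ → MvPolynomial α ℂ) (m : α → ℂ) :
    dif (TT t) (Sum.elim m 0) = (Sum.elim 0 (fun j => eval m (t j)) : α ⊕ μ → ℂ) := by
  rw [TT, dif_sum]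
  have h1 : ∀ j, dif (rename Sum.inl (t j) * X (Sum.inr j) : MvPolynomial (α ⊕ μ) ℂ)
      (Sum.elim m 0) = eval m (t j) • Pi.single (Sum.inr j) 1 := by
    intro j
    rw [dif_mul, dif_X, eval_X, eval_rename, Sum.elim_comp_inl]
    simp
  simp only [h1]
  funext i
  rcases i with i | i
  · simp [Finset.sum_apply]
  · simp [Finset.sum_apply, Pi.single_apply]

/-- The sections extend to forms in `I`. -/
theorem ext_coord (hI : Smooth I r) (hL : ∀ m : α → ℂ, (Sum.elim m 0 : α ⊕ μ → ℂ) ∈ cone I)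
    (D : ℕ) (hq : min r (D + 1) + 2 ≤ Fintype.card α) (t : Fin r → μ → MvPolynomial α ℂ)
    (e : Fin r → ℕ) (hth : ∀ i j, (t i j).IsHomogeneous (e i))
    (ht : ∀ i, ∀ m : α → ℂ, m ≠ 0 →
      (Sum.elim 0 (fun j => eval m (t i j)) : α ⊕ μ → ℂ) ∈ N I (Sum.elim m 0))
    (hli : ∀ m, m ≠ 0 → LinearIndependent ℂ (fun i => fun j => eval m (t i j)))
    (F : Fin r → MvPolynomial (α ⊕ μ) ℂ) (hF : ∀ j, F j ∈ I)
    (hFh : ∀ j, (F j).IsHomogeneous (D + 1)) {m₀ : α → ℂ}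
    (hFli : LinearIndependent ℂ (fun j => dif (F j) (Sum.elim m₀ 0))) :
    ∃ G : Fin r → MvPolynomial (α ⊕ μ) ℂ, ∀ i, G i ∈ I ∧ (G i).IsHomogeneous (e i + 1) ∧
      dif (G i) (Sum.elim m₀ 0) = (Sum.elim 0 (fun j => eval m₀ (t i j)) : α ⊕ μ → ℂ) := by
  classical
  obtain ⟨a₀, a₁, hab⟩ := Fintype.exists_pair_of_one_lt_card (α := α) (by omega)
  choose G hGh hGT hGO using fun i => ext_ord hI hL D hq t e hth ht hli hab i
  have hdif : ∀ i, dif (G i) (Sum.elim m₀ 0) =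
      (Sum.elim 0 (fun j => eval m₀ (t i j)) : α ⊕ μ → ℂ) := by
    intro i
    have h1 := dif_of_Fil (hGT i) m₀
    rw [dif_sub, sub_eq_zero] at h1
    rw [h1, dif_TT]
  have hG0 : ∀ i, eval (Sum.elim m₀ 0) (G i) = 0 := by
    intro i
    have h1 : G i ∈ Fil α μ 1 := by
      have e1 : G i = (G i - TT (t i)) + TT (t i) := by ring
      rw [e1]
      exact Ideal.add_mem _ (Fil_anti (by omega) (hGT i)) (TT_mem_Fil _)
    have h2 := Fil_le_pow 1 m₀ h1
    rw [pow_one] at h2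
    exact mem_mI.1 h2
  refine ⟨G, fun i => ⟨?_, hGh i, hdif i⟩⟩
  have hmem : ∀ j, F j ∈ Ideal.span (Set.range G) := fun j =>
    mem_span_ext hI hL D hq t ht hli G (fun i => ⟨_, hGh i⟩) hGT hGO (hF j) (hFh j)
  choose b hb using fun j => (Ideal.mem_span_range_iff_exists_fun).1 (hmem j)
  let A : Matrix (Fin r) (Fin r) (MvPolynomial (α ⊕ μ) ℂ) := Matrix.of b
  have hdet : eval (Sum.elim m₀ 0) A.det ≠ 0 := by
    intro h0
    rw [RingHom.map_det] at h0
    obtain ⟨c, hc0, hc⟩ := Matrix.exists_vecMul_eq_zero_iff.2 h0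
    apply hc0
    funext j
    refine Fintype.linearIndependent_iff.1 hFli c ?_ j
    have h1 : ∀ j, dif (F j) (Sum.elim m₀ 0) =
        ∑ i, eval (Sum.elim m₀ 0) (b j i) • dif (G i) (Sum.elim m₀ 0) := by
      intro j
      rw [← hb j, dif_sum]
      refine Finset.sum_congr rfl fun i _ => ?_
      rw [dif_mul, hG0, zero_smul, add_zero]
    simp only [h1, Finset.smul_sum, smul_smul]
    rw [Finset.sum_comm]
    refine Finset.sum_eq_zero fun i _ => ?_
    rw [← Finset.sum_smul]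
    have h2 := congrFun hc i
    simp only [Matrix.vecMul, dotProduct, RingHom.mapMatrix_apply, Matrix.map_apply, A,
      Matrix.of_apply, Pi.zero_apply] at h2
    rw [h2, zero_smul]
  have h1 : A.det * G i = ∑ j, A.adjugate i j * F j := by
    have h2 : ∀ j, F j = ∑ k, A j k * G k := fun j => (hb j).symm
    simp only [h2, Finset.mul_sum]
    rw [Finset.sum_comm]
    have h3 : ∀ k, ∑ j, A.adjugate i j * (A j k * G k) = (A.adjugate * A) i k * G k := by
      intro k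
      rw [Matrix.mul_apply, Finset.sum_mul]
      exact Finset.sum_congr rfl fun j _ => by ring
    simp only [h3, Matrix.adjugate_mul, Matrix.smul_apply, Matrix.one_apply, smul_eq_mul]
    simp
  have h2 : A.det * G i ∈ I := by
    rw [h1]
    exact Ideal.sum_mem _ fun j _ => Ideal.mul_mem_left _ _ (hF j)
  refine (hI.prime.mem_or_mem h2).resolve_left fun h3 => hdet ?_
  exact hL m₀ _ h3

end

end H79.Hart3
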