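import Pool.Agent.H79.Hart3.Ext

/-!
# Everywhere independent sections on a linear subspace come from forms of the ideal
-/

open MvPolynomial

set_option linter.unusedSectionVars false

namespace H79.Hart3

open H89.Hart H79.Hart

variable {ι κ : Type*} [Fintype ι] [DecidableEq ι] [Fintype κ] [DecidableEq κ]

/-- conormal vectors vanish on linear subspaces of the cone. -/
theorem dot_of_lin {κ : Type*} {I : Ideal (MvPolynomial ι ℂ)} {φ : (κ → ℂ) →ₗ[ℂ] (ι → ℂ)}
    (hφI : ∀ y, φ y ∈ cone I) {s : ι → ℂ} {y : κ → ℂ} (hs : s ∈ N I (φ y)) (v : κ → ℂ) :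
    s ⬝ᵥ φ v = 0 := by
  obtain ⟨f, hf, rfl⟩ := mem_N.1 hs
  rw [← coeff_one_ln]
  have : ln (φ y) (φ v) f = 0 := by
    apply Polynomial.funext
    intro t
    rw [eval_ln, ← map_smul, ← map_add, Polynomial.eval_zero]
    exact hφI _ f hf
  rw [this, Polynomial.coeff_zero]

theorem exists_coords (φ : (κ → ℂ) →ₗ[ℂ] (ι → ℂ)) (hφ : Function.Injective φ) :
    ∃ (m : ℕ) (L : (κ ⊕ Fin m → ℂ) →ₗ[ℂ] (ι → ℂ)) (M : (ι → ℂ) →ₗ[ℂ] (κ ⊕ Fin m → ℂ)),
      (∀ z, M (L z) = z) ∧ (∀ x, L (M x) = x) ∧ ∀ y, L (Sum.elim y 0) = φ y := by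
  obtain ⟨W, hW⟩ := Submodule.exists_isCompl (LinearMap.range φ)
  let b := Module.finBasis ℂ W
  let L : (κ ⊕ Fin (Module.finrank ℂ W) → ℂ) →ₗ[ℂ] (ι → ℂ) :=
    φ ∘ₗ LinearMap.funLeft ℂ ℂ Sum.inl +
      (W.subtype ∘ₗ b.equivFun.symm.toLinearMap) ∘ₗ LinearMap.funLeft ℂ ℂ Sum.inr
  have hL : ∀ x, L x = φ (fun i => x (Sum.inl i)) +
      (b.equivFun.symm (fun i => x (Sum.inr i)) : ι → ℂ) := fun x => rfl
  have hinj : Function.Injective L := by
    rw [← LinearMap.ker_eq_bot, LinearMap.ker_eq_bot']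
    intro x hx
    rw [hL] at hx
    have h1 : φ (fun i => x (Sum.inl i)) ∈ LinearMap.range φ ⊓ W := by
      refine ⟨⟨_, rfl⟩, ?_⟩
      rw [eq_neg_of_add_eq_zero_left hx]
      exact W.neg_mem (Subtype.mem _)
    rw [hW.inf_eq_bot, Submodule.mem_bot] at h1
    have h2 : (fun i => x (Sum.inl i)) = 0 := hφ (by rw [h1, map_zero])
    rw [h1, zero_add] at hx
    have h3 : b.equivFun.symm (fun i => x (Sum.inr i)) = 0 := Subtype.ext hx
    have h4 : (fun i => x (Sum.inr i)) = 0 := by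
      have := congrArg b.equivFun h3
      rwa [LinearEquiv.apply_symm_apply, map_zero] at this
    funext i
    rcases i with i | i
    · exact congrFun h2 i
    · exact congrFun h4 i
  have hsurj : Function.Surjective L := by
    intro v
    have h1 : v ∈ LinearMap.range φ ⊔ W := by rw [hW.sup_eq_top]; trivial
    obtain ⟨_, ⟨y, rfl⟩, w, hw, rfl⟩ := Submodule.mem_sup.1 h1
    refine ⟨Sum.elim y (b.equivFun ⟨w, hw⟩), ?_⟩
    rw [hL]
    simp
  let e := LinearEquiv.ofBijective L ⟨hinj, hsurj⟩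
  refine ⟨_, L, e.symm.toLinearMap, fun z => e.symm_apply_apply z, fun x => e.apply_symm_apply x,
    fun y => ?_⟩
  rw [hL]
  simp only [Sum.elim_inl, Sum.elim_inr, Pi.zero_apply]
  have : b.equivFun.symm (fun _ => (0 : ℂ)) = 0 := map_zero _
  rw [this]
  simp

/-- Everywhere independent sections along a linear subspace come from forms in `I`. -/
theorem exists_forms {I : Ideal (MvPolynomial ι ℂ)} {r D : ℕ} (hI : Smooth I r)
    (hq : min r (D + 1) + 2 ≤ Fintype.card κ) {φ : (κ → ℂ) →ₗ[ℂ] (ι → ℂ)}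
    (hφ : Function.Injective φ) (hφI : ∀ y, φ y ∈ cone I) (e : Fin r → ℕ)
    (s : Fin r → ι → MvPolynomial κ ℂ) (hs : ∀ i, Sec I φ (e i) (s i))
    (hli : ∀ y, y ≠ 0 → LinearIndependent ℂ (fun i => ev (s i) y))
    (F : Fin r → MvPolynomial ι ℂ) (hF : ∀ j, F j ∈ I)
    (hFh : ∀ j, (F j).IsHomogeneous (D + 1)) {y₀ : κ → ℂ} (hy₀ : y₀ ≠ 0)
    (hFli : LinearIndependent ℂ (fun j => dif (F j) (φ y₀))) :
    ∃ G : Fin r → MvPolynomial ι ℂ, (∀ i, G i ∈ I) ∧ (∀ i, (G i).IsHomogeneous (e i + 1)) ∧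
      LinearIndependent ℂ (fun i => dif (G i) (φ y₀)) := by
  obtain ⟨m, L, M, hML, hLM, hLφ⟩ := exists_coords φ hφ
  have hInv : H15.Hart.Inv L M I := ⟨hML, fun x _ => hLM x⟩
  set I' := H15.Hart.pull M I with hI'
  have hker : Module.finrank ℂ (LinearMap.ker (H15.Hart.tr L)) = 0 := by
    have h1 := H15.Hart.finrank_ker_tr hInv
    have h2 : Fintype.card (κ ⊕ Fin m) = Fintype.card ι := by
      have := LinearEquiv.finrank_eq (LinearEquiv.ofBijective L
        ⟨fun a b h => by rw [← hML a, h, hML], fun x => ⟨M x, hLM x⟩⟩)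
      rwa [Module.finrank_fintype_fun_eq_card, Module.finrank_fintype_fun_eq_card] at this
    omega
  have hsm : Smooth I' r :=
    { prime := haveI := hI.prime; H15.Hart.pull_isPrime hInv hI.prime
      homog := fun f hf d => by
        change H15.Hart.sub M (homogeneousComponent d f) ∈ I
        rw [← H15.Hart.homogeneousComponent_sub]
        exact hI.homog _ hf d
      rank := fun z hz hz0 => by
        have h1 := H15.Hart.finrank_N_pull hInv hI.prime z
        rw [hker, add_zero] at h1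
        rw [hI', h1]
        exact hI.rank _ ((H15.Hart.cone_pull hInv hI.prime).1 hz)
          (H15.Hart.L_ne_zero hInv hI.prime hz0) }
  have hLc : ∀ y : κ → ℂ, (Sum.elim y 0 : κ ⊕ Fin m → ℂ) ∈ cone I' := by
    intro y
    rw [hI', H15.Hart.cone_pull hInv hI.prime, hLφ]
    exact hφI y
  let t : Fin r → Fin m → MvPolynomial κ ℂ := fun i j =>
    ∑ k, C (L (Pi.single (Sum.inr j) 1) k) * s i k
  have htev : ∀ i j y, eval y (t i j) = H15.Hart.tr L (ev (s i) y) (Sum.inr j) := by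
    intro i j y
    rw [H15.Hart.tr_apply]
    simp [t, ev, dotProduct, mul_comm]
  have htr : ∀ i y, y ≠ 0 → H15.Hart.tr L (ev (s i) y) =
      (Sum.elim 0 (fun j => eval y (t i j)) : κ ⊕ Fin m → ℂ) := by
    intro i y hy
    funext x
    rcases x with x | x
    · rw [H15.Hart.tr_apply, Sum.elim_inl, Pi.zero_apply]
      have h1 : (Pi.single (Sum.inl x) 1 : κ ⊕ Fin m → ℂ) = Sum.elim (Pi.single x 1) 0 := by
        funext z
        rcases z with z | z <;> simp [Pi.single_apply]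
      rw [h1, hLφ]
      exact dot_of_lin hφI ((hs i).mem y hy) _
    · rw [Sum.elim_inr, htev]
  have ht : ∀ i, ∀ y : κ → ℂ, y ≠ 0 →
      (Sum.elim 0 (fun j => eval y (t i j)) : κ ⊕ Fin m → ℂ) ∈ N I' (Sum.elim y 0) := by
    intro i y hy
    rw [← htr i y hy, hI', H15.Hart.N_pull hInv hI.prime, hLφ]
    exact Submodule.mem_map_of_mem ((hs i).mem y hy)
  have htrinj : ∀ v, H15.Hart.tr L v = 0 → v = 0 := by
    intro v hv
    have h1 : LinearMap.ker (H15.Hart.tr L) = ⊥ := Submodule.finrank_eq_zero.1 hker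
    exact (LinearMap.ker_eq_bot'.1 h1) v hv
  have htli : ∀ y, y ≠ 0 → LinearIndependent ℂ (fun i => fun j => eval y (t i j)) := by
    intro y hy
    rw [Fintype.linearIndependent_iff]
    intro c hc
    refine Fintype.linearIndependent_iff.1 (hli y hy) c ?_
    apply htrinj
    rw [map_sum]
    simp only [map_smul]
    rw [Finset.sum_congr rfl fun i _ => by rw [htr i y hy]]
    funext x
    rcases x with x | x
    · simp [Finset.sum_apply]
    · have := congrFun hc x
      simpa [Finset.sum_apply] using this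
  have hth : ∀ i j, (t i j).IsHomogeneous (e i) := by
    intro i j
    refine IsHomogeneous.sum _ _ _ fun k _ => ?_
    have := (isHomogeneous_C κ (L (Pi.single (Sum.inr j) 1) k)).mul ((hs i).homog k)
    rwa [zero_add] at this
  have hFli' : LinearIndependent ℂ (fun j => dif (H15.Hart.sub L (F j))
      (Sum.elim y₀ 0 : κ ⊕ Fin m → ℂ)) := by
    rw [Fintype.linearIndependent_iff]
    intro c hc
    refine Fintype.linearIndependent_iff.1 hFli c ?_
    apply htrinj
    rw [map_sum, ← hc]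
    refine Finset.sum_congr rfl fun j _ => ?_
    rw [map_smul, H15.Hart.dif_sub, hLφ]
  obtain ⟨G', hG'⟩ := ext_coord hsm hLc D hq t e hth ht htli (fun j => H15.Hart.sub L (F j))
    (fun j => (H15.Hart.sub_mem_pull hInv hI.prime).2 (hF j))
    (fun j => H15.Hart.sub_homog L (hFh j)) hFli'
  refine ⟨fun i => H15.Hart.sub M (G' i), fun i => (hG' i).1,
    fun i => H15.Hart.sub_homog M (hG' i).2.1, ?_⟩
  rw [Fintype.linearIndependent_iff]
  intro c hc
  refine Fintype.linearIndependent_iff.1 (htli y₀ hy₀) c ?_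
  have h1 := congrArg (H15.Hart.tr L) hc
  rw [map_sum, map_zero] at h1
  have h2 : ∀ i, H15.Hart.tr L (dif (H15.Hart.sub M (G' i)) (φ y₀)) =
      (Sum.elim 0 (fun j => eval y₀ (t i j)) : κ ⊕ Fin m → ℂ) := by
    intro i
    rw [← hLφ, ← H15.Hart.dif_sub, H15.Hart.sub_comp]
    have : M ∘ₗ L = LinearMap.id := LinearMap.ext fun x => hML x
    rw [this, H15.Hart.sub_id]
    exact (hG' i).2.2
  simp only [map_smul, h2] at h1
  funext j
  have := congrFun h1 (Sum.inr j)
  simpa [Finset.sum_apply] using this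

end H79.Hart3
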