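import Pool.Agent.H79.Hart3.Defs
import Pool.Agent.H79.Hart.Zeros

/-!
# Sections which are independent on a plane are independent everywhere (HB3-3, helper50)
-/

open MvPolynomial

set_option linter.unusedSectionVars false

namespace H79.Hart3

open H89.Hart H79.Hart

variable {ι κ : Type*} [Fintype ι] [DecidableEq ι] [Fintype κ] [DecidableEq κ]

/-- The matrix of contractions. -/
noncomputable def cmat {r : ℕ} (s : Fin r → ι → MvPolynomial κ ℂ) (l : Fin r → ι → ℂ) :
    Matrix (Fin r) (Fin r) (MvPolynomial κ ℂ) :=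
  Matrix.of fun i j => ctr (l j) (s i)

theorem eval_det_cmat {r : ℕ} (s : Fin r → ι → MvPolynomial κ ℂ) (l : Fin r → ι → ℂ)
    (y : κ → ℂ) : eval y (cmat s l).det = (Matrix.of fun i j => ev (s i) y ⬝ᵥ l j).det := by
  rw [RingHom.map_det]
  congr 1
  ext i j
  simp only [RingHom.mapMatrix_apply, Matrix.map_apply, cmat, Matrix.of_apply, eval_ctr]

theorem det_cmat_homog {r : ℕ} {e : Fin r → ℕ} (s : Fin r → ι → MvPolynomial κ ℂ)
    (hs : ∀ i m, (s i m).IsHomogeneous (e i)) (l : Fin r → ι → ℂ) :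
    ((cmat s l).det).IsHomogeneous (∑ i, e i) := by
  rw [← Matrix.det_transpose, Matrix.det_apply]
  refine IsHomogeneous.sum _ _ _ fun σ _ => ?_
  have h1 : (∏ i, (cmat s l).transpose (σ i) i).IsHomogeneous (∑ i, e i) := by
    refine IsHomogeneous.prod _ _ _ fun i _ => ?_
    simpa [cmat, Matrix.transpose_apply] using ctr_homog (l := l (σ i)) (hs i)
  have h2 : (Equiv.Perm.sign σ • ∏ i, (cmat s l).transpose (σ i) i) =
      C (((Equiv.Perm.sign σ : ℤˣ) : ℤ) : ℂ) * ∏ i, (cmat s l).transpose (σ i) i := by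
    rw [Units.smul_def, zsmul_eq_mul]
    congr 1
  rw [h2]
  have := (isHomogeneous_C κ ((((Equiv.Perm.sign σ : ℤˣ) : ℤ) : ℂ))).mul h1
  simpa using this

theorem li_of_det_ne {r : ℕ} (v l : Fin r → ι → ℂ)
    (h : (Matrix.of fun i j => v i ⬝ᵥ l j).det ≠ 0) : LinearIndependent ℂ v := by
  rw [Fintype.linearIndependent_iff]
  intro c hc
  by_contra hne
  push Not at hne
  obtain ⟨i, hi⟩ := hne
  apply h
  apply Matrix.exists_vecMul_eq_zero_iff.1
  refine ⟨c, fun h0 => hi (congrFun h0 i), ?_⟩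
  funext j
  have h1 := congrArg (fun u => u ⬝ᵥ l j) hc
  simp only [sum_dotProduct, zero_dotProduct, smul_dotProduct, smul_eq_mul] at h1
  simpa [Matrix.vecMul, dotProduct] using h1

theorem indep_linear {I : Ideal (MvPolynomial ι ℂ)} {r : ℕ} (hI : Smooth I r)
    {ψ : (κ → ℂ) →ₗ[ℂ] (ι → ℂ)} (hψ : Function.Injective ψ) (hψI : ∀ y, ψ y ∈ cone I)
    (e : Fin r → ℕ) (s : Fin r → ι → MvPolynomial κ ℂ) (hs : ∀ i, Sec I ψ (e i) (s i))
    (B : (Fin 2 → ℂ) →ₗ[ℂ] (κ → ℂ)) (hB : Function.Injective B)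
    (hli : ∀ b, b ≠ 0 → LinearIndependent ℂ (fun i => ev (s i) (B b))) :
    ∀ y, y ≠ 0 → LinearIndependent ℂ (fun i => ev (s i) y) := by
  intro y₀ hy₀
  by_contra hdep
  have hψ0 : ∀ y, y ≠ 0 → ψ y ≠ 0 := fun y hy h => hy ((injective_iff_map_eq_zero ψ).1 hψ y h)
  obtain ⟨D₀, l, hD₀, hD⟩ := local_inj hI (hψI y₀) (hψ0 y₀ hy₀)
  have hδ0 : eval y₀ (cmat s l).det = 0 := by
    rw [eval_det_cmat]
    by_contra hne
    exact hdep (li_of_det_ne _ _ hne)
  obtain ⟨k, hk⟩ : ∃ k, y₀ k ≠ 0 := by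
    by_contra hc
    push Not at hc
    exact hy₀ (funext hc)
  obtain ⟨Q, hQ, hQh, hQg, hyQ, hdim⟩ := exists_component
    (fun _ : Unit => (cmat s l).det)
    (fun _ => ⟨_, det_cmat_homog s (fun i m => (hs i).homog m) l⟩) y₀ (fun _ => hδ0)
  have hQd : ∀ y ∈ cone Q, ¬ LinearIndependent ℂ (fun i => ev (s i) y) := by
    intro y hy hliy
    obtain ⟨w, hw⟩ := exists_dual _ hliy
    have key : (X k : MvPolynomial κ ℂ) * ((cmat s w).det * H15.Hart.sub ψ D₀) ∈ Q := by
      apply mem_of_cone hQ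
      intro z hz
      rw [map_mul, map_mul, eval_det_cmat, H15.Hart.eval_sub, eval_X]
      by_contra hne
      have h0 : z k ≠ 0 := left_ne_zero_of_mul hne
      have h1 : (Matrix.of fun i j => ev (s i) z ⬝ᵥ w j).det ≠ 0 :=
        left_ne_zero_of_mul (right_ne_zero_of_mul hne)
      have h2 : eval (ψ z) D₀ ≠ 0 := right_ne_zero_of_mul (right_ne_zero_of_mul hne)
      have hz0 : z ≠ 0 := fun h => h0 (congrFun h k)
      have h3 : (Matrix.of fun i j => ev (s i) z ⬝ᵥ l j).det = 0 := by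
        rw [← eval_det_cmat]
        exact hz _ (hQg ())
      obtain ⟨c, hc0, hc⟩ := Matrix.exists_vecMul_eq_zero_iff.2 h3
      have hφN : (∑ i, c i • ev (s i) z) ∈ N I (ψ z) :=
        Submodule.sum_mem _ fun i _ => Submodule.smul_mem _ _ ((hs i).mem z hz0)
      have hφl : ∀ j, (∑ i, c i • ev (s i) z) ⬝ᵥ l j = 0 := by
        intro j
        have h4 := congrFun hc j
        simp only [Matrix.vecMul, dotProduct, Matrix.of_apply, Pi.zero_apply] at h4
        rw [sum_dotProduct]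
        refine Eq.trans (Finset.sum_congr rfl fun i _ => ?_) h4
        rw [smul_dotProduct, smul_eq_mul]
        rfl
      have h5 := hD (ψ z) (hψI z) _ hφN hφl
      have h6 : (∑ i, c i • ev (s i) z) = 0 := (smul_eq_zero.1 h5).resolve_left h2
      exact hc0 (funext (Fintype.linearIndependent_iff.1 (li_of_det_ne _ _ h1) c h6))
    rcases hQ.mem_or_mem key with h1 | h1
    · exact hk (by simpa using hyQ _ h1)
    rcases hQ.mem_or_mem h1 with h2 | h2
    · have h3 := hy _ h2
      have h4 : (Matrix.of fun i j => ev (s i) y ⬝ᵥ w j) = 1 := by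
        ext i j
        rw [Matrix.of_apply, hw, Matrix.one_apply]
      rw [eval_det_cmat, h4, Matrix.det_one] at h3
      exact one_ne_zero h3
    · have h3 := hyQ _ h2
      rw [H15.Hart.eval_sub] at h3
      exact hD₀ h3
  obtain ⟨l', hl'⟩ := exists_equations (LinearMap.range B)
  have hfin : Module.finrank ℂ (LinearMap.range B) = 2 := by
    rw [LinearMap.finrank_range_of_inj hB, Module.finrank_fintype_fun_eq_card, Fintype.card_fin]
  have hcard : 2 ≤ Fintype.card κ := by
    have := Submodule.finrank_le (LinearMap.range B)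
    rwa [hfin, Module.finrank_fintype_fun_eq_card] at this
  have hlt : (Fintype.card (Fin (Fintype.card κ - Module.finrank ℂ (LinearMap.range B))) :
      WithBot ℕ∞) < ringKrullDim (MvPolynomial κ ℂ ⧸ Q) := by
    by_contra hcon
    push Not at hcon
    rw [Fintype.card_fin, hfin] at hcon
    have h1 := hdim.trans (add_le_add_left hcon _)
    rw [Fintype.card_unit] at h1
    have h2 : Fintype.card κ ≤ (Fintype.card κ - 2) + 1 := by exact_mod_cast h1
    omega
  obtain ⟨x, hx, hx0, hxl⟩ := exists_ne_zero Q hQ hQh (fun b => lf (l' b))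
    (fun b => by rw [eval_lf]; simp) hlt
  obtain ⟨b, rfl⟩ : x ∈ LinearMap.range B := (hl' x).2 fun j => by
    simpa [eval_lf] using hxl j
  have hb : b ≠ 0 := by
    rintro rfl
    exact hx0 (map_zero B)
  exact hQd _ hx (hli b hb)

end H79.Hart3
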