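import Pool.Agent.H79.Hart3.Defs
import Pool.Agent.H79.Hart.LinSpace

/-!
# Linear extension (MP_9a3fdb_ag, job HB3-1)
-/

open MvPolynomial

set_option linter.unusedSectionVars false

namespace H79.Hart3

open H89.Hart H79.Hart

variable {ι κ : Type*} [Fintype ι] [DecidableEq ι] [Fintype κ] [DecidableEq κ]

/-- The linear map `(b, x, y) ↦ (b, χ x + y w)`. -/
noncomputable def ext2 {m k : ℕ} (χ : (Fin k → ℂ) →ₗ[ℂ] (ι → ℂ)) (w : ι → ℂ) :
    (Fin m ⊕ Fin (k + 1) → ℂ) →ₗ[ℂ] (Fin m ⊕ ι → ℂ) where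
  toFun z := Sum.elim (fun b => z (Sum.inl b))
    (χ (fun i => z (Sum.inr (Fin.castSucc i))) + z (Sum.inr (Fin.last _)) • w)
  map_add' z z' := by
    have h : (fun i => (z + z') (Sum.inr (Fin.castSucc i))) =
        (fun i : Fin k => z (Sum.inr (Fin.castSucc i))) +
          fun i => z' (Sum.inr (Fin.castSucc i)) := rfl
    funext i
    rcases i with b | i
    · rfl
    · rw [h, map_add]
      simp only [Sum.elim_inr, Pi.add_apply, Pi.smul_apply, smul_eq_mul]
      ring
  map_smul' c z := by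
    have h : (fun i => (c • z) (Sum.inr (Fin.castSucc i))) =
        c • (fun i : Fin k => z (Sum.inr (Fin.castSucc i))) := rfl
    funext i
    rcases i with b | i
    · rfl
    · rw [h, map_smul]
      simp only [Sum.elim_inr, Pi.add_apply, Pi.smul_apply, smul_eq_mul, RingHom.id_apply]
      ring

theorem ext2_apply {m k : ℕ} (χ : (Fin k → ℂ) →ₗ[ℂ] (ι → ℂ)) (w : ι → ℂ)
    (z : Fin m ⊕ Fin (k + 1) → ℂ) :
    ext2 χ w z = Sum.elim (fun b => z (Sum.inl b))
      (χ (fun i => z (Sum.inr (Fin.castSucc i))) + z (Sum.inr (Fin.last _)) • w) := rfl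

/-- The generic extension, as a polynomial whose coefficients are polynomials in `w`. -/
noncomputable def Theta2 {m k : ℕ} (χ : (Fin k → ℂ) →ₗ[ℂ] (ι → ℂ)) :
    MvPolynomial (Fin m ⊕ ι) ℂ →+* MvPolynomial (Fin m ⊕ Fin (k + 1)) (MvPolynomial ι ℂ) :=
  eval₂Hom (C.comp C) (Sum.elim (fun b => X (Sum.inl b))
    (fun i => ∑ a : Fin k, C (C (χ (Pi.single a 1) i)) * X (Sum.inr (Fin.castSucc a)) +
      C (X i) * X (Sum.inr (Fin.last _))))

theorem Theta2_C {m k : ℕ} (χ : (Fin k → ℂ) →ₗ[ℂ] (ι → ℂ)) (c : ℂ) :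
    Theta2 (m := m) χ (C c) = C (C c) := by
  rw [Theta2, coe_eval₂Hom, eval₂_C]
  rfl

theorem eval_map_Theta2_X {m k : ℕ} (χ : (Fin k → ℂ) →ₗ[ℂ] (ι → ℂ)) (w : ι → ℂ)
    (x : Fin m ⊕ Fin (k + 1) → ℂ) (i : Fin m ⊕ ι) :
    eval x (map (eval w) (Theta2 χ (X i))) = ext2 χ w x i := by
  rw [Theta2, coe_eval₂Hom, eval₂_X, ext2_apply, H15.Hart.apply_eq_sum χ]
  rcases i with b | i
  · simp only [Sum.elim_inl, map_X, eval_X]
  · simp only [Sum.elim_inr, map_add, map_sum, map_mul, map_C, map_X, eval_C, eval_X, Pi.add_apply,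
      Finset.sum_apply, Pi.smul_apply, smul_eq_mul]
    congr 1
    · exact Finset.sum_congr rfl fun a _ => mul_comm _ _
    · exact mul_comm _ _

theorem eval_Theta2 {m k : ℕ} (χ : (Fin k → ℂ) →ₗ[ℂ] (ι → ℂ)) (w : ι → ℂ)
    (x : Fin m ⊕ Fin (k + 1) → ℂ) (f : MvPolynomial (Fin m ⊕ ι) ℂ) :
    eval x (map (eval w) (Theta2 χ f)) = eval (ext2 χ w x) f := by
  have h : ((eval x).comp ((map (eval w)).comp (Theta2 χ)) :
      MvPolynomial (Fin m ⊕ ι) ℂ →+* ℂ) = eval (ext2 χ w x) := by
    apply MvPolynomial.ringHom_ext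
    · intro c
      rw [RingHom.comp_apply, RingHom.comp_apply, Theta2_C, map_C, eval_C, eval_C, eval_C]
    · intro i
      rw [RingHom.comp_apply, RingHom.comp_apply, eval_map_Theta2_X, eval_X]
  exact RingHom.congr_fun h f

theorem map_Theta2 {m k : ℕ} (χ : (Fin k → ℂ) →ₗ[ℂ] (ι → ℂ)) (w : ι → ℂ)
    (f : MvPolynomial (Fin m ⊕ ι) ℂ) :
    map (eval w) (Theta2 χ f) = H15.Hart.sub (ext2 χ w) f := by
  refine MvPolynomial.funext fun x => ?_
  rw [eval_Theta2, H15.Hart.eval_sub]

/-- Few linear conditions define a complement of a subspace. -/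
theorem exists_compl_forms (U : Submodule ℂ (ι → ℂ)) :
    ∃ π : (ι → ℂ) →ₗ[ℂ] (Fin (Module.finrank ℂ U) → ℂ), ∀ w, π w = 0 → w ∈ U → w = 0 := by
  obtain ⟨U', hU⟩ := Submodule.exists_isCompl U
  refine ⟨(Module.finBasis ℂ U).equivFun.toLinearMap ∘ₗ U.projectionOnto U' hU, ?_⟩
  intro w hw hwU
  rw [LinearMap.comp_apply, LinearEquiv.coe_coe, LinearEquiv.map_eq_zero_iff,
    Submodule.projectionOnto_apply_eq_zero_iff] at hw
  exact (Submodule.disjoint_def.mp hU.disjoint) w hwU hw

/-- HB3-1. Linear extension. -/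
theorem exists_lin_ext {m : ℕ} (B : Submodule ℂ (ι → ℂ)) {α : Type*} [Fintype α]
    (h : α → MvPolynomial (Fin m ⊕ ι) ℂ) (δ : α → ℕ)
    (hh : ∀ a, (h a).IsHomogeneous (δ a + 1))
    (h0 : ∀ a (b : Fin m → ℂ), eval (Sum.elim b 0) (h a) = 0) (k : ℕ)
    (hk : Module.finrank ℂ B + k + ∑ a, Nat.multichoose (m + k) (δ a) ≤ Fintype.card ι) :
    ∃ χ : (Fin k → ℂ) →ₗ[ℂ] (ι → ℂ), (∀ x, χ x ∈ B → x = 0) ∧
      ∀ a (b : Fin m → ℂ) (x : Fin k → ℂ), eval (Sum.elim b (χ x)) (h a) = 0 := by
  classical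
  induction k with
  | zero =>
    refine ⟨0, fun x _ => Subsingleton.elim _ _, fun a b x => ?_⟩
    rw [LinearMap.zero_apply]
    exact h0 a b
  | succ k ih =>
    have hmono : ∑ a, Nat.multichoose (m + k) (δ a) ≤ ∑ a, Nat.multichoose (m + (k + 1)) (δ a) := by
      refine Finset.sum_le_sum fun a _ => ?_
      rcases δ a with _ | d
      · rw [Nat.multichoose_zero_right, Nat.multichoose_zero_right]
      · rw [← add_assoc, Nat.multichoose_succ_succ (m + k) d]
        exact Nat.le_add_right _ _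
    obtain ⟨χ, hχB, hχh⟩ := ih (by omega)
    set U := B ⊔ LinearMap.range χ with hU
    have hfin : Module.finrank ℂ U ≤ Module.finrank ℂ B + k := by
      refine (Submodule.finrank_add_le_finrank_add_finrank _ _).trans ?_
      have := LinearMap.finrank_range_le χ
      rw [Module.finrank_fin_fun] at this
      omega
    obtain ⟨π, hπ⟩ := exists_compl_forms U
    set H : ((Σ a : α, Sym (Fin m ⊕ Fin (k + 1)) (δ a)) ⊕ Fin (Module.finrank ℂ U)) →
        MvPolynomial ι ℂ :=
      Sum.elim (fun p => coeff (Multiset.toFinsupp (p.2 : Multiset (Fin m ⊕ Fin (k + 1))) +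
        Finsupp.single (Sum.inr (Fin.last _)) 1) (Theta2 χ (h p.1)))
        (fun j => H15.Hart.lin (H15.Hart.row π j))
      with hH
    have hzero : ∀ a, H15.Hart.sub (ext2 χ 0) (h a) = 0 := by
      intro a
      refine MvPolynomial.funext fun x => ?_
      rw [H15.Hart.eval_sub, ext2_apply, smul_zero, add_zero, hχh, map_zero]
    obtain ⟨w, hw0, hw⟩ := Pool.Agent.H6.exists_ne_zero_common_zero H (by
      rintro (⟨a, m⟩ | j)
      · rw [hH, Sum.elim_inl, ← coeff_map, map_Theta2, hzero, coeff_zero]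
      · rw [hH, Sum.elim_inr, H15.Hart.eval_lin, dotProduct_zero]) (by
      rw [Nat.card_eq_fintype_card, Nat.card_eq_fintype_card, Fintype.card_sum, Fintype.card_sigma,
        Fintype.card_fin]
      simp only [Sym.card_sym_eq_multichoose, Fintype.card_sum, Fintype.card_fin]
      omega)
    have hπw : π w = 0 := by
      funext j
      have := hw (Sum.inr j)
      rw [hH, Sum.elim_inr, H15.Hart.eval_lin, H15.Hart.row_dot] at this
      exact this
    have hsub : ∀ a, H15.Hart.sub (ext2 χ w) (h a) = 0 := by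
      intro a
      ext n
      rw [coeff_zero]
      by_cases hm : n.degree = δ a + 1
      · by_cases hl : n (Sum.inr (Fin.last _)) = 0
        · refine coeff_eq_zero_of_vanish (Sum.inr (Fin.last k)) _ (fun x hx => ?_) n hl
          rw [H15.Hart.eval_sub, ext2_apply, hx, zero_smul, add_zero, hχh]
        · have hle : Finsupp.single (Sum.inr (Fin.last k)) 1 ≤ n := by
            rw [Finsupp.single_le_iff]
            omega
          set n' := n - Finsupp.single (Sum.inr (Fin.last k)) 1 with hn'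
          have hmm : n' + Finsupp.single (Sum.inr (Fin.last k)) 1 = n := tsub_add_cancel_of_le hle
          have hdeg : n'.degree = δ a := by
            have := congrArg Finsupp.degree hmm
            rw [map_add, Finsupp.degree_single, hm] at this
            omega
          have hcard : Multiset.card (Finsupp.toMultiset n') = δ a := by
            rw [Finsupp.card_toMultiset, ← hdeg]
            rfl
          have := hw (Sum.inl ⟨a, ⟨Finsupp.toMultiset n', hcard⟩⟩)
          rw [hH, Sum.elim_inl, ← coeff_map, map_Theta2] at this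
          simp only [Sym.coe_mk] at this
          rw [Finsupp.toMultiset_toFinsupp, hmm] at this
          exact this
      · by_contra hne
        exact hm (by
          have := H15.Hart.sub_homog (ext2 χ w) (hh a) hne
          rw [Finsupp.degree_eq_weight_one]
          exact this)
    have hwU : w ∉ U := fun hwU => hw0 (hπ w hπw hwU)
    set χ' : (Fin (k + 1) → ℂ) →ₗ[ℂ] (ι → ℂ) :=
      χ ∘ₗ (LinearMap.funLeft ℂ ℂ Fin.castSucc) +
        (LinearMap.proj (Fin.last k) : (Fin (k + 1) → ℂ) →ₗ[ℂ] ℂ).smulRight w with hχ'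
    have hχ'a : ∀ x, χ' x = χ (fun i => x (Fin.castSucc i)) + x (Fin.last k) • w := fun x => rfl
    refine ⟨χ', ?_, ?_⟩
    · intro x hx
      rw [hχ'a] at hx
      have h4 : x (Fin.last k) = 0 := by
        by_contra hne
        apply hwU
        have h5 : x (Fin.last k) • w ∈ U := by
          have h6 : χ (fun i => x (Fin.castSucc i)) ∈ U :=
            Submodule.mem_sup_right (LinearMap.mem_range_self _ _)
          have h7 : χ (fun i => x (Fin.castSucc i)) + x (Fin.last k) • w ∈ U :=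
            Submodule.mem_sup_left hx
          have h8 := U.sub_mem h7 h6
          rwa [add_sub_cancel_left] at h8
        exact (U.smul_mem_iff hne).mp h5
      rw [h4, zero_smul, add_zero] at hx
      have h5 := hχB _ hx
      funext i
      refine Fin.lastCases h4 (fun i => ?_) i
      exact congrFun h5 i
    · intro a b x
      have h5 : Sum.elim b (χ' x) = ext2 χ w (Sum.elim b x) := by
        rw [ext2_apply, hχ'a]
        rfl
      rw [h5, ← H15.Hart.eval_sub, hsub, map_zero]

end H79.Hart3
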