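import Pool.Agent.H79.Hart3.Defs
import Pool.Agent.H79.Hart.OneVar
import Pool.Agent.H94.Cubic.Dm

/-!
# Independence along all lines through a point is independence everywhere (HB3-6)
-/

open MvPolynomial

set_option linter.unusedSectionVars false

namespace H79.Hart3

open H89.Hart H79.Hart

variable {ι κ : Type*} [Fintype ι] [DecidableEq ι] [Fintype κ] [DecidableEq κ]

/-- the translation `f ↦ f(p + ·)`. -/
noncomputable def trl (p : ι → ℂ) : MvPolynomial ι ℂ →ₐ[ℂ] MvPolynomial ι ℂ :=
  aeval fun i => X i + C (p i)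

theorem eval_trl (p z : ι → ℂ) (f : MvPolynomial ι ℂ) : eval z (trl p f) = eval (p + z) f := by
  have : ((aeval z : MvPolynomial ι ℂ →ₐ[ℂ] ℂ).comp (trl p)) = aeval (p + z) := by
    apply MvPolynomial.algHom_ext
    intro i
    simp [trl, add_comm]
  have h2 := congrArg (fun ψ => ψ f) this
  simpa [aeval_eq_eval] using h2

/-- the coefficients of the restriction to a line through `p`. -/
theorem coeff_ln_trl (p z : ι → ℂ) (f : MvPolynomial ι ℂ) (k : ℕ) :
    (ln p z f).coeff k = eval z (homogeneousComponent k (trl p f)) := by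
  have h1 : ln p z f = ∑ m ∈ Finset.range ((trl p f).totalDegree + 1),
      Polynomial.C (eval z (homogeneousComponent m (trl p f))) * Polynomial.X ^ m := by
    apply Polynomial.funext
    intro t
    rw [eval_ln, ← eval_trl, Polynomial.eval_finsetSum]
    conv_lhs => rw [← sum_homogeneousComponent (trl p f)]
    rw [map_sum]
    refine Finset.sum_congr rfl fun m _ => ?_
    rw [eval_smul_homog (homogeneousComponent_isHomogeneous m _), Polynomial.eval_mul,
      Polynomial.eval_C, Polynomial.eval_pow, Polynomial.eval_X, mul_comm]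
  rw [h1, Polynomial.finsetSum_coeff]
  simp only [Polynomial.coeff_C_mul, Polynomial.coeff_X_pow, mul_ite, mul_one, mul_zero]
  rw [Finset.sum_ite_eq]
  split_ifs with h
  · rfl
  · rw [homogeneousComponent_eq_zero, map_zero]
    simpa using h

/-- All points of the plane spanned by `p` and `z` are in the cone if the line `p + t z` is. -/
theorem lin2_mem_cone {I : Ideal (MvPolynomial ι ℂ)} {r : ℕ} (hI : Smooth I r) {p z : ι → ℂ}
    (h : ∀ t : ℂ, p + t • z ∈ cone I) (b : Fin 2 → ℂ) : lin2 p z b ∈ cone I := by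
  have h1 : ∀ s : ℂ, s ≠ 0 → z + s • p ∈ cone I := by
    intro s hs
    have h2 := smul_mem_cone hI (h s⁻¹) s
    rwa [smul_add, smul_smul, mul_inv_cancel₀ hs, one_smul, add_comm] at h2
  have h2 : z ∈ cone I := by
    intro f hf
    have h3 : ln z p f = 0 := by
      apply Polynomial.eq_zero_of_infinite_isRoot
      refine Set.Infinite.mono ?_ (Set.Finite.infinite_compl (Set.finite_singleton (0 : ℂ)))
      intro s hs
      have hs' : s ≠ 0 := by simpa using hs
      change (ln z p f).IsRoot s
      rw [Polynomial.IsRoot.def, eval_ln]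
      exact h1 s hs' f hf
    rw [← coeff_zero_ln z p f, h3, Polynomial.coeff_zero]
  rw [lin2_apply]
  by_cases hb : b 0 = 0
  · rw [hb, zero_smul, zero_add]
    exact smul_mem_cone hI h2 _
  · have h3 := smul_mem_cone hI (h ((b 0)⁻¹ * b 1)) (b 0)
    rwa [smul_add, smul_smul, ← mul_assoc, mul_inv_cancel₀ hb, one_mul] at h3

/-- HB3-6. Independence along all lines through `p` is independence everywhere. -/
theorem indep_of_lines {I : Ideal (MvPolynomial ι ℂ)} {r D : ℕ} (hI : Smooth I r) {p : ι → ℂ}
    (hp : p ∈ cone I) (hp0 : p ≠ 0) (F : Fin r → MvPolynomial ι ℂ) (hF : ∀ j, F j ∈ I)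
    (hFh : ∀ j, (F j).IsHomogeneous (D + 1))
    (hFli : LinearIndependent ℂ (fun j => dif (F j) p))
    (hN : r * (D + 1) + 2 * r + 1 ≤ Fintype.card ι) (G : Fin r → MvPolynomial ι ℂ)
    (e : Fin r → ℕ) (hG : ∀ i, G i ∈ I) (hGh : ∀ i, (G i).IsHomogeneous (e i + 1))
    (hline : ∀ z, z ≠ 0 → (∀ b, lin2 p z b ∈ cone I) →
      LinearIndependent ℂ (fun i => dif (G i) z)) :
    ∀ x ∈ cone I, x ≠ 0 → LinearIndependent ℂ (fun i => dif (G i) x) := by
  classical
  intro x hx hx0
  by_contra hli
  rw [Fintype.linearIndependent_iff] at hli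
  push Not at hli
  obtain ⟨c, hc, i₁, hi₁⟩ := hli
  -- the maximal degree
  obtain ⟨i₀, hi₀, hmax⟩ := Finset.exists_max_image (Finset.univ.filter fun i => c i ≠ 0) e
    ⟨i₁, by simpa using hi₁⟩
  simp only [Finset.mem_filter, Finset.mem_univ, true_and] at hi₀ hmax
  obtain ⟨k, hk⟩ := Function.ne_iff.1 hx0
  simp only [Pi.zero_apply] at hk
  set E := e i₀ with hE
  let L : MvPolynomial ι ℂ := C (x k)⁻¹ * X k
  have hLx : eval x L = 1 := by simp [L, hk]
  have hLh : L.IsHomogeneous 1 := isHomogeneous_C_mul_X _ _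
  let H : MvPolynomial ι ℂ := ∑ i, C (c i) * (L ^ (E - e i) * G i)
  have hHI : H ∈ I := Ideal.sum_mem _ fun i _ =>
    Ideal.mul_mem_left _ _ (Ideal.mul_mem_left _ _ (hG i))
  have hHh : H.IsHomogeneous (E + 1) := by
    refine IsHomogeneous.sum _ _ _ fun i _ => ?_
    by_cases hci : c i = 0
    · rw [hci, C_0, zero_mul]
      exact isHomogeneous_zero _ _ _
    · have h1 := hmax i hci
      have h2 := (isHomogeneous_C ι (c i)).mul ((hLh.pow (E - e i)).mul (hGh i))
      have h3 : 0 + (1 * (E - e i) + (e i + 1)) = E + 1 := by omega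
      rwa [h3] at h2
  have hdH : ∀ z ∈ cone I, dif H z = ∑ i, (c i * eval z L ^ (E - e i)) • dif (G i) z := by
    intro z hz
    rw [dif_sum]
    refine Finset.sum_congr rfl fun i _ => ?_
    rw [← MvPolynomial.smul_eq_C_mul, dif_smul, dif_mul, hz _ (hG i), zero_smul, add_zero,
      map_pow, smul_smul]
  have hHx : dif H x = 0 := by
    rw [hdH x hx, ← hc]
    refine Finset.sum_congr rfl fun i _ => ?_
    rw [hLx, one_pow, mul_one]
  -- the cone of lines
  obtain ⟨P, hP, hgP, -, hdP⟩ := H94.Cubic.comp_abs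
    (fun a : Fin r × Fin (D + 1) => homogeneousComponent (a.2.val + 1) (trl p (F a.1)))
    (fun a => ⟨_, homogeneousComponent_isHomogeneous _ _⟩) (q := p)
    (by
      intro a
      rw [← coeff_ln_trl]
      have h1 : ln p p (F a.1) = 0 := by
        apply Polynomial.funext
        intro t
        rw [eval_ln, Polynomial.eval_zero]
        have h2 := smul_mem_cone hI hp (1 + t)
        rw [add_smul, one_smul] at h2
        exact h2 _ (hF a.1)
      rw [h1, Polynomial.coeff_zero])
  rw [Fintype.card_prod, Fintype.card_fin, Fintype.card_fin] at hdP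
  obtain ⟨z, hz, hz0, hHz⟩ := H94.Cubic.exists_singular_in hI hHI hHh hx hx0 hHx hP (by omega)
  have hzl : ∀ t : ℂ, p + t • z ∈ cone I := by
    refine line_mem hI F hF hp hp0 hFli z ?_
    intro j t
    have h1 : ln p z (F j) = 0 := by
      ext m
      rw [Polynomial.coeff_zero]
      rcases Nat.eq_zero_or_pos m with rfl | hm
      · rw [coeff_zero_ln]
        exact hp _ (hF j)
      · by_cases hm2 : m ≤ D + 1
        · rw [coeff_ln_trl]
          have h2 := hz _ (hgP (j, ⟨m - 1, by omega⟩))
          have h3 : m - 1 + 1 = m := by omega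
          simpa only [h3] using h2
        · apply Polynomial.coeff_eq_zero_of_natDegree_lt
          have := natDegree_ln_le (hFh j) p z
          omega
    rw [← eval_ln, h1, Polynomial.eval_zero]
  have hb := lin2_mem_cone hI hzl
  have hzI : z ∈ cone I := by
    have := hb (Pi.single 1 1)
    rw [lin2_apply] at this
    simpa using this
  have h1 := hline z hz0 hb
  rw [Fintype.linearIndependent_iff] at h1
  rw [hdH z hzI] at hHz
  have h2 := h1 _ hHz i₀
  rw [← hE, Nat.sub_self, pow_zero, mul_one] at h2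
  exact hi₀ h2

end H79.Hart3
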