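import Pool.Agent.H79.Hart3.Defs
import Pool.Agent.H79.Hart.Reduce

/-!
# One reduction step for an extendable family (HB3-2, helper37)
-/

open MvPolynomial

set_option linter.unusedSectionVars false

namespace H79.Hart3

open H89.Hart H79.Hart

namespace StepAux

section line

variable {κ : Type*} [Fintype κ] [DecidableEq κ]

/-- restriction of a polynomial to a line -/
noncomputable def onLine (y z : κ → ℂ) : MvPolynomial κ ℂ →ₐ[ℂ] Polynomial ℂ :=
  aeval (fun i => Polynomial.C (y i) + Polynomial.C (z i) * Polynomial.X)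

theorem eval_onLine (y z : κ → ℂ) (f : MvPolynomial κ ℂ) (t : ℂ) :
    (onLine y z f).eval t = eval (y + t • z) f := by
  have h : ((Polynomial.aeval t : Polynomial ℂ →ₐ[ℂ] ℂ).comp (onLine y z)) =
      (aeval (y + t • z) : MvPolynomial κ ℂ →ₐ[ℂ] ℂ) := by
    apply MvPolynomial.algHom_ext
    intro i
    rw [AlgHom.comp_apply, onLine, aeval_X, aeval_X]
    simp only [map_add, map_mul, Polynomial.aeval_C, Polynomial.aeval_X, Pi.add_apply,
      Pi.smul_apply, smul_eq_mul, Algebra.algebraMap_self, RingHom.id_apply]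
    ring
  have h2 := congrArg (fun φ => φ f) h
  simpa [aeval_eq_eval, Polynomial.aeval_def] using h2

/-- If a product vanishes along a line, with one possible exception, and the first factor does not
vanish at one point, then the second factor vanishes. -/
theorem line_zero {ι : Type*} [Fintype ι] [DecidableEq ι] (f : MvPolynomial ι ℂ)
    (g : MvPolynomial κ ℂ) (x w : ι → ℂ) (y z : κ → ℂ) (bad : ℂ)
    (h : ∀ t, t ≠ bad → eval (x + t • w) f * eval (y + t • z) g = 0) (hf : eval x f ≠ 0) (t : ℂ) :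
    eval (y + t • z) g = 0 := by
  have h1 : onLine x w f * onLine y z g = 0 := by
    apply Polynomial.eq_zero_of_infinite_isRoot
    refine Set.Infinite.mono (s := {bad}ᶜ) ?_ (Set.Finite.infinite_compl (Set.finite_singleton bad))
    intro t ht
    have h2 := h t ht
    rw [← eval_onLine, ← eval_onLine, ← Polynomial.eval_mul] at h2
    exact h2
  rcases mul_eq_zero.1 h1 with h2 | h2
  · exfalso
    apply hf
    have h3 := eval_onLine x w f 0
    rw [h2, zero_smul, add_zero, Polynomial.eval_zero] at h3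
    exact h3.symm
  · rw [← eval_onLine, h2, Polynomial.eval_zero]

end line

section quot

variable {ι : Type*} [Fintype ι] [DecidableEq ι]

/-- `y ↦ y + β y₁ e₀` -/
noncomputable def shr (β : ℂ) : (Fin 2 ⊕ ι → ℂ) →ₗ[ℂ] (Fin 2 ⊕ ι → ℂ) :=
  LinearMap.id + (β • LinearMap.proj (Sum.inl 1)).smulRight (Pi.single (Sum.inl 0) 1)

theorem shr_apply (β : ℂ) (y : Fin 2 ⊕ ι → ℂ) :
    shr β y = y + (β * y (Sum.inl 1)) • Pi.single (Sum.inl 0) (1 : ℂ) := by
  simp [shr]

theorem shr_zero (β : ℂ) (y : Fin 2 ⊕ ι → ℂ) :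
    shr β y (Sum.inl 0) = y (Sum.inl 0) + β * y (Sum.inl 1) := by
  rw [shr_apply]; simp

theorem shr_one (β : ℂ) (y : Fin 2 ⊕ ι → ℂ) : shr β y (Sum.inl 1) = y (Sum.inl 1) := by
  rw [shr_apply]
  simp

theorem shr_shr (β : ℂ) (y : Fin 2 ⊕ ι → ℂ) : shr β (shr (-β) y) = y := by
  rw [shr_apply β, shr_one, shr_apply (-β), add_assoc, ← add_smul]
  simp

/-- Division by the linear form `y₀ - β y₁`. -/
theorem exists_quot (β : ℂ) (f : MvPolynomial (Fin 2 ⊕ ι) ℂ) (δ : ℕ)
    (hh : f.IsHomogeneous (δ + 1))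
    (hf : ∀ y : Fin 2 ⊕ ι → ℂ, y (Sum.inl 0) = β * y (Sum.inl 1) → eval y f = 0) :
    ∃ q : MvPolynomial (Fin 2 ⊕ ι) ℂ, q.IsHomogeneous δ ∧
      ∀ y, eval y f = (y (Sum.inl 0) - β * y (Sum.inl 1)) * eval y q := by
  obtain ⟨q, hq, hfq⟩ := exists_quot_homog (Sum.inl 0) (H15.Hart.sub (shr β) f) δ
    (H15.Hart.sub_homog _ hh) fun y hy => by
      rw [H15.Hart.eval_sub]
      refine hf _ ?_
      rw [shr_zero, shr_one, hy, zero_add]
  refine ⟨H15.Hart.sub (shr (-β)) q, H15.Hart.sub_homog _ hq, fun y => ?_⟩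
  have h1 := congrArg (eval (shr (-β) y)) hfq
  rw [H15.Hart.eval_sub, shr_shr, map_mul, eval_X, shr_zero] at h1
  rw [h1, H15.Hart.eval_sub]
  ring

/-- `(b, w) ↦ (b₁ β, b₁, w)` -/
noncomputable def prq (β : ℂ) : (Fin 2 ⊕ ι → ℂ) →ₗ[ℂ] (Fin 2 ⊕ ι → ℂ) :=
  LinearMap.id + (β • LinearMap.proj (Sum.inl 1) - LinearMap.proj (Sum.inl 0) :
    (Fin 2 ⊕ ι → ℂ) →ₗ[ℂ] ℂ).smulRight (Pi.single (Sum.inl 0) 1)

theorem prq_apply (β : ℂ) (b : Fin 2 → ℂ) (w : ι → ℂ) :
    prq β (Sum.elim b w) = Sum.elim (b 1 • ![β, 1]) w := by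
  funext j
  rcases j with j | j
  · fin_cases j
    · simp [prq, mul_comm]
    · simp [prq]
  · simp [prq]

end quot

theorem li_update {V : Type*} [AddCommGroup V] [Module ℂ V] {r : ℕ} {v : Fin r → V}
    (hv : LinearIndependent ℂ v) (a : Fin r → ℂ) (i : Fin r) (ha : a i ≠ 0) :
    LinearIndependent ℂ (Function.update v i (∑ j, a j • v j)) := by
  rw [Fintype.linearIndependent_iff] at hv ⊢
  intro g hg
  have h1 : ∑ j, (Function.update g i 0 j + g i * a j) • v j = 0 := by
    rw [← hg, ← Finset.add_sum_erase _ _ (Finset.mem_univ i),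
      ← Finset.add_sum_erase _ (fun j => g j • Function.update v i (∑ j, a j • v j) j)
        (Finset.mem_univ i)]
    simp only [Function.update_self, zero_add]
    have h2 : ∑ j ∈ Finset.univ.erase i, (Function.update g i 0 j + g i * a j) • v j =
        ∑ j ∈ Finset.univ.erase i, (g j • v j + g i • a j • v j) := by
      refine Finset.sum_congr rfl fun j hj => ?_
      rw [Function.update_of_ne (Finset.ne_of_mem_erase hj), add_smul, mul_smul]
    have h3 : ∑ j ∈ Finset.univ.erase i, g j • Function.update v i (∑ j, a j • v j) j =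
        ∑ j ∈ Finset.univ.erase i, g j • v j := by
      refine Finset.sum_congr rfl fun j hj => ?_
      rw [Function.update_of_ne (Finset.ne_of_mem_erase hj)]
    rw [h2, h3, Finset.sum_add_distrib, ← Finset.smul_sum,
      ← Finset.add_sum_erase _ (fun j => a j • v j) (Finset.mem_univ i), smul_add, mul_smul]
    abel
  have h4 := hv _ h1
  have h5 : g i = 0 := by
    have := h4 i
    rw [Function.update_self, zero_add] at this
    exact (mul_eq_zero.1 this).resolve_right ha
  intro j
  by_cases hj : j = i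
  · rw [hj, h5]
  · have := h4 j
    rwa [Function.update_of_ne hj, h5, zero_mul, add_zero] at this

end StepAux

open StepAux

section step

variable {ι : Type*} [Fintype ι] [DecidableEq ι]

theorem EF.step {I : Ideal (MvPolynomial ι ℂ)} {r D : ℕ} (hI : Smooth I r) {p u : ι → ℂ} {c : ℕ}
    {e : Fin r → ℕ} {s : Fin r → ι → MvPolynomial (Fin 2 ⊕ ι) ℂ}
    {h : Fin c → MvPolynomial (Fin 2 ⊕ ι) ℂ} (hE : EF I r D p u c e s h) {b : Fin 2 → ℂ}
    (hb : b ≠ 0) (hdep : ¬ LinearIndependent ℂ (fun i => ev (s i) (Sum.elim b 0))) :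
    ∃ (e' : Fin r → ℕ) (s' : Fin r → ι → MvPolynomial (Fin 2 ⊕ ι) ℂ)
      (h' : Fin (c + r) → MvPolynomial (Fin 2 ⊕ ι) ℂ),
      EF I r D p u (c + r) e' s' h' ∧ ∑ i, e' i + 1 = ∑ i, e i := by
  -- scaling of the base point
  have hscale : ∀ (i : Fin r) (t : ℂ) (b : Fin 2 → ℂ) (w : ι → ℂ),
      ev (s i) (Sum.elim (t • b) (t • w)) = t ^ e i • ev (s i) (Sum.elim b w) := by
    intro i t b w
    funext m
    have h1 := eval_smul_homog (hE.hs i m) t (Sum.elim b w)
    have h2 : t • (Sum.elim b w : Fin 2 ⊕ ι → ℂ) = Sum.elim (t • b) (t • w) := by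
      funext j; rcases j with j | j <;> rfl
    rw [h2] at h1
    exact h1
  have hunit : ∀ (t : ℂ), t ≠ 0 → ∀ b : Fin 2 → ℂ,
      (LinearIndependent ℂ (fun i => ev (s i) (Sum.elim (t • b) 0)) ↔
        LinearIndependent ℂ (fun i => ev (s i) (Sum.elim b 0))) := by
    intro t ht b
    have h1 : (fun i => ev (s i) (Sum.elim (t • b) (0 : ι → ℂ))) =
        (fun i => (Units.mk0 (t ^ e i) (pow_ne_zero _ ht))) •
          (fun i => ev (s i) (Sum.elim b (0 : ι → ℂ))) := by
      funext i
      have := hscale i t b 0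
      rw [smul_zero] at this
      rw [this]
      rfl
    rw [h1, LinearIndependent.units_smul_iff]
  have hb1 : b 1 ≠ 0 := by
    intro h1
    apply hdep
    have h2 : b = b 0 • (Pi.single 0 1 : Fin 2 → ℂ) := by
      funext j
      fin_cases j
      · simp
      · simpa using h1
    have h3 : b 0 ≠ 0 := fun h4 => hb (by rw [h2, h4, zero_smul])
    rw [h2, hunit _ h3]
    exact hE.li
  obtain ⟨β, hβ⟩ : ∃ β : ℂ, b = b 1 • ![β, 1] := by
    refine ⟨b 0 / b 1, ?_⟩
    funext j
    fin_cases j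
    · simp [mul_div_cancel₀ _ hb1]
    · simp
  rw [hβ, hunit _ hb1] at hdep
  set q : Fin 2 → ℂ := ![β, 1] with hq
  have hq1 : q 1 = 1 := rfl
  have hq0 : q 0 = β := rfl
  rw [Fintype.not_linearIndependent_iff] at hdep
  obtain ⟨a, ha0, j₀, hj₀⟩ := hdep
  -- the maximal degree
  obtain ⟨i₀, hi₀m, hi₀⟩ := Finset.exists_max_image
    (Finset.univ.filter fun i => a i ≠ 0) e ⟨j₀, by simp [hj₀]⟩
  have hai₀ : a i₀ ≠ 0 := by simpa using hi₀m
  have hmax : ∀ i, a i ≠ 0 → e i ≤ e i₀ := fun i hi => hi₀ i (by simp [hi])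
  -- the degree is positive
  have hpos : 0 < e i₀ := by
    by_contra hcon
    have h0 : ∀ i, a i ≠ 0 → e i = 0 := fun i hi => by have := hmax i hi; omega
    have hconst : ∀ i, a i ≠ 0 → ∀ b : Fin 2 → ℂ,
        ev (s i) (Sum.elim b 0) = ev (s i) 0 := by
      intro i hi b
      have h1 := hscale i 0 b 0
      rw [h0 i hi, pow_zero, one_smul, zero_smul, zero_smul] at h1
      rw [← h1]
      congr 1
      funext j; rcases j with j | j <;> rfl
    have h1 : ∑ i, a i • ev (s i) (Sum.elim (Pi.single 0 1) 0) = 0 := by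
      refine (Finset.sum_congr rfl fun i _ => ?_).trans ha0
      by_cases hi : a i = 0
      · rw [hi, zero_smul, zero_smul]
      · rw [hconst i hi, hconst i hi]
    exact hai₀ (Fintype.linearIndependent_iff.1 hE.li a h1 i₀)
  obtain ⟨δ, hδ⟩ : ∃ δ, e i₀ = δ + 1 := ⟨e i₀ - 1, by omega⟩
  -- the combination
  obtain ⟨S, hS⟩ : ∃ S : ι → MvPolynomial (Fin 2 ⊕ ι) ℂ,
      ∀ m, S m = ∑ i, C (a i) * X (Sum.inl 1) ^ (e i₀ - e i) * s i m := ⟨_, fun _ => rfl⟩
  have hSh : ∀ m, (S m).IsHomogeneous (δ + 1) := by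
    intro m
    rw [hS m]
    refine IsHomogeneous.sum _ _ _ fun i _ => ?_
    by_cases hi : a i = 0
    · rw [hi, map_zero, zero_mul, zero_mul]
      exact isHomogeneous_zero _ _ _
    · have h1 := ((isHomogeneous_C (Fin 2 ⊕ ι) (a i)).mul
        ((isHomogeneous_X ℂ (Sum.inl 1 : Fin 2 ⊕ ι)).pow (e i₀ - e i))).mul (hE.hs i m)
      have h2 : 0 + 1 * (e i₀ - e i) + e i = δ + 1 := by have := hmax i hi; omega
      rwa [h2] at h1
  have hSev : ∀ (b : Fin 2 → ℂ) (w : ι → ℂ),
      ev S (Sum.elim b w) = ∑ i, (a i * b 1 ^ (e i₀ - e i)) • ev (s i) (Sum.elim b w) := by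
    intro b w
    funext m
    rw [ev, hS m, map_sum, Finset.sum_apply]
    refine Finset.sum_congr rfl fun i _ => ?_
    simp [ev]
  have hSscale : ∀ (t : ℂ) (b : Fin 2 → ℂ) (w : ι → ℂ),
      ev S (Sum.elim (t • b) (t • w)) = t ^ (δ + 1) • ev S (Sum.elim b w) := by
    intro t b w
    funext m
    have h1 := eval_smul_homog (hSh m) t (Sum.elim b w)
    have h2 : t • (Sum.elim b w : Fin 2 ⊕ ι → ℂ) = Sum.elim (t • b) (t • w) := by
      funext j; rcases j with j | j <;> rfl
    rw [h2] at h1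
    exact h1
  have hSq : ev S (Sum.elim q 0) = 0 := by
    rw [hSev]
    refine (Finset.sum_congr rfl fun i _ => ?_).trans ha0
    rw [hq1, one_pow, mul_one]
  -- the part along `q`
  obtain ⟨S₀, hS₀⟩ : ∃ S₀ : ι → MvPolynomial (Fin 2 ⊕ ι) ℂ,
      ∀ m, S₀ m = H15.Hart.sub (prq β) (S m) := ⟨_, fun _ => rfl⟩
  have hS₀h : ∀ m, (S₀ m).IsHomogeneous (δ + 1) := fun m => by
    rw [hS₀]; exact H15.Hart.sub_homog _ (hSh m)
  have hS₀ev : ∀ (b : Fin 2 → ℂ) (w : ι → ℂ),
      ev S₀ (Sum.elim b w) = ev S (Sum.elim (b 1 • q) w) := by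
    intro b w
    funext m
    rw [ev, hS₀, H15.Hart.eval_sub, prq_apply]
    rfl
  have hS₀0 : ∀ b : Fin 2 → ℂ, ev S₀ (Sum.elim b 0) = 0 := by
    intro b
    rw [hS₀ev]
    have := hSscale (b 1) q 0
    rw [smul_zero] at this
    rw [this, hSq, smul_zero]
  -- the quotient
  have hquot : ∀ m, ∃ Q : MvPolynomial (Fin 2 ⊕ ι) ℂ, Q.IsHomogeneous δ ∧
      ∀ y, eval y (S m - S₀ m) = (y (Sum.inl 0) - β * y (Sum.inl 1)) * eval y Q := by
    intro m
    refine exists_quot β _ δ ((hSh m).sub (hS₀h m)) fun y hy => ?_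
    have h1 : y = Sum.elim (y ∘ Sum.inl) (y ∘ Sum.inr) := (Sum.elim_comp_inl_inr y).symm
    have h2 := congrFun (hS₀ev (y ∘ Sum.inl) (y ∘ Sum.inr)) m
    have h3 : (y ∘ Sum.inl) 1 • q = y ∘ Sum.inl := by
      funext j
      fin_cases j
      · simp [hq, hy, mul_comm]
      · simp [hq]
    rw [h3, ← h1] at h2
    rw [map_sub, sub_eq_zero]
    exact h2.symm
  choose S' hS'h hS' using hquot
  have hS'ev : ∀ (b : Fin 2 → ℂ) (w : ι → ℂ), (b 0 - β * b 1) • ev S' (Sum.elim b w) =
      ev S (Sum.elim b w) - ev S₀ (Sum.elim b w) := by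
    intro b w
    funext m
    have h1 := hS' m (Sum.elim b w)
    rw [map_sub] at h1
    exact h1.symm
  -- local injectivity
  have hqne : q ≠ 0 := fun h1 => by
    have := congrFun h1 1
    rw [hq1] at this
    exact one_ne_zero this
  have hlq : lin2 p u q ≠ 0 := fun h1 => hqne (hE.inj (by rw [h1, map_zero]))
  obtain ⟨D₀, l, hD₀, hl⟩ := local_inj hI (hE.line q) hlq
  refine ⟨Function.update e i₀ δ, Function.update s i₀ S',
    Fin.append h (fun k => X (Sum.inl 1) ^ (D - (δ + 1)) * ctr (l k) S₀),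
    ⟨?_, ?_, ?_, ?_, hE.line, hE.inj, ?_, ?_⟩, ?_⟩
  · intro i
    by_cases hi : i = i₀
    · rw [hi, Function.update_self]
      have := hE.le i₀
      omega
    · rw [Function.update_of_ne hi]
      exact hE.le i
  · intro i m
    by_cases hi : i = i₀
    · rw [hi, Function.update_self, Function.update_self]
      exact hS'h m
    · rw [Function.update_of_ne hi, Function.update_of_ne hi]
      exact hE.hs i m
  · intro k
    refine Fin.addCases (fun k => ?_) (fun k => ?_) k
    · rw [Fin.append_left]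
      exact hE.hh k
    · rw [Fin.append_right]
      have h1 := ((isHomogeneous_X ℂ (Sum.inl 1 : Fin 2 ⊕ ι)).pow (D - (δ + 1))).mul
        (ctr_homog (l := l k) hS₀h)
      have h2 : 1 * (D - (δ + 1)) + (δ + 1) = D := by have := hE.le i₀; omega
      rwa [h2] at h1
  · intro k b
    refine Fin.addCases (fun k => ?_) (fun k => ?_) k
    · rw [Fin.append_left]
      exact hE.hh0 k b
    · rw [Fin.append_right, map_mul, eval_ctr, hS₀0]
      simp
  · -- independence at `p`
    have h1 : (fun i => ev (Function.update s i₀ S' i) (Sum.elim (Pi.single 0 1) 0)) =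
        Function.update (fun i => ev (s i) (Sum.elim (Pi.single 0 1) 0)) i₀
          (∑ i, (a i * 0 ^ (e i₀ - e i)) • ev (s i) (Sum.elim (Pi.single 0 1) 0)) := by
      funext i
      by_cases hi : i = i₀
      · rw [hi, Function.update_self, Function.update_self]
        have h2 := hS'ev (Pi.single 0 1) 0
        rw [hS₀0, sub_zero, hSev] at h2
        have h3 : ((Pi.single 0 1 : Fin 2 → ℂ) 0 - β * (Pi.single 0 1 : Fin 2 → ℂ) 1) = 1 := by
          simp
        have h4 : (Pi.single 0 1 : Fin 2 → ℂ) 1 = 0 := by simp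
        rw [h3, one_smul, h4] at h2
        exact h2
      · rw [Function.update_of_ne hi, Function.update_of_ne hi]
    rw [h1]
    refine li_update hE.li _ i₀ ?_
    rw [Nat.sub_self, pow_zero, mul_one]
    exact hai₀
  · -- sections
    intro W hW hh i b w hw hne
    have hold : ∀ a (b : Fin 2 → ℂ), ∀ w ∈ W, eval (Sum.elim b w) (h a) = 0 := by
      intro k b w hw
      have := hh (Fin.castAdd r k) b w hw
      rwa [Fin.append_left] at this
    have hnew : ∀ (k : Fin r) (b : Fin 2 → ℂ), ∀ w ∈ W,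
        b 1 ^ (D - (δ + 1)) * (ev S₀ (Sum.elim b w) ⬝ᵥ l k) = 0 := by
      intro k b w hw
      have := hh (Fin.natAdd c k) b w hw
      rwa [Fin.append_right, map_mul, eval_ctr, map_pow, eval_X] at this
    have hgood := hE.good W hW hold
    by_cases hi : i = i₀
    swap
    · rw [Function.update_of_ne hi]
      exact hgood i b w hw hne
    rw [hi, Function.update_self]
    have hSN : ∀ (b : Fin 2 → ℂ), ∀ w ∈ W, lin2 p u b + w ≠ 0 →
        ev S (Sum.elim b w) ∈ N I (lin2 p u b + w) := by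
      intro b w hw hne
      rw [hSev]
      exact Submodule.sum_mem _ fun i _ => Submodule.smul_mem _ _ (hgood i b w hw hne)
    -- `S (q, w) = 0`
    have hSqw : ∀ w ∈ W, ev S (Sum.elim q w) = 0 := by
      intro w hw
      obtain ⟨bad, hbad⟩ : ∃ bad : ℂ, ∀ t, t ≠ bad → lin2 p u q + t • w ≠ 0 := by
        by_cases hex : ∃ t : ℂ, lin2 p u q + t • w = 0
        · obtain ⟨t, ht⟩ := hex
          refine ⟨t, fun t' ht' h1 => ?_⟩
          have h2 : (t' - t) • w = 0 := by
            rw [sub_smul, sub_eq_zero]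
            exact add_left_cancel (h1.trans ht.symm)
          rcases smul_eq_zero.1 h2 with h3 | h3
          · exact ht' (sub_eq_zero.1 h3)
          · rw [h3, smul_zero, add_zero] at ht
            exact hlq ht
        · exact ⟨0, fun t _ h1 => hex ⟨t, h1⟩⟩
      funext m
      have key := line_zero D₀ (S m) (lin2 p u q) w (Sum.elim q 0)
        (Sum.elim (0 : Fin 2 → ℂ) w) bad
        (fun t ht => ?_) hD₀ 1
      · have h2 : (Sum.elim q 0 : Fin 2 ⊕ ι → ℂ) + (1 : ℂ) • Sum.elim (0 : Fin 2 → ℂ) w =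
             Sum.elim q w := by
          funext j; rcases j with j | j <;> simp
        rw [h2] at key
        exact key
      · have h2 : (Sum.elim q 0 : Fin 2 ⊕ ι → ℂ) + t • Sum.elim (0 : Fin 2 → ℂ) w =
             Sum.elim q (t • w) := by
          funext j; rcases j with j | j <;> simp
        rw [h2]
        have htw : t • w ∈ W := W.smul_mem t hw
        have h3 := hl (lin2 p u q + t • w) (hW q _ htw) (ev S (Sum.elim q (t • w)))
          (hSN q _ htw (hbad t ht)) (fun k => by
            have h4 := hnew k q _ htw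
            rwa [hq1, one_pow, one_mul, hS₀ev, hq1, one_smul] at h4)
        exact congrFun h3 m
    -- `S₀ = 0` on `W`
    have hS₀W : ∀ (b : Fin 2 → ℂ), ∀ w ∈ W, ev S₀ (Sum.elim b w) = 0 := by
      intro b w hw
      rw [hS₀ev]
      have hnz : ∀ t : ℂ, t ≠ 0 → ev S (Sum.elim (t • q) w) = 0 := by
        intro t ht
        have h1 := hSscale t q (t⁻¹ • w)
        rw [smul_smul, mul_inv_cancel₀ ht, one_smul, hSqw _ (W.smul_mem _ hw), smul_zero] at h1
        exact h1
      funext m
      have key := line_zero (1 : MvPolynomial ι ℂ) (S m) 0 0 (Sum.elim 0 w) (Sum.elim q 0) 0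
        (fun t ht => ?_) (by simp) (b 1)
      · have h2 : (Sum.elim 0 w : Fin 2 ⊕ ι → ℂ) + b 1 • Sum.elim q 0 = Sum.elim (b 1 • q) w := by
          funext j; rcases j with j | j <;> simp
        rw [h2] at key
        exact key
      · have h2 : (Sum.elim 0 w : Fin 2 ⊕ ι → ℂ) + t • Sum.elim q 0 = Sum.elim (t • q) w := by
          funext j; rcases j with j | j <;> simp
        rw [h2]
        have h3 := congrFun (hnz t ht) m
        rw [map_one, one_mul]
        exact h3
    -- off the line `b₀ = β b₁`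
    have hoff : ∀ b : Fin 2 → ℂ, b 0 - β * b 1 ≠ 0 → lin2 p u b + w ≠ 0 →
        ev S' (Sum.elim b w) ∈ N I (lin2 p u b + w) := by
      intro b hμ hne
      have h1 := hSN b w hw hne
      have h2 := hS'ev b w
      rw [hS₀W b w hw, sub_zero] at h2
      rw [← h2] at h1
      have h3 := Submodule.smul_mem _ (b 0 - β * b 1)⁻¹ h1
      rwa [smul_smul, inv_mul_cancel₀ hμ, one_smul] at h3
    by_cases hμ : b 0 - β * b 1 = 0
    swap
    · exact hoff b hμ hne
    · -- limit
      let e₀ : Fin 2 → ℂ := Pi.single 0 1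
      have hcont : Continuous fun t : ℂ => b + t • e₀ := by fun_prop
      have hx : Filter.Tendsto (fun t : ℂ => lin2 p u (b + t • e₀) + w) (nhdsWithin 0 {0}ᶜ)
          (nhds (lin2 p u b + w)) := by
        have hc : Continuous fun t : ℂ => lin2 p u (b + t • e₀) + w :=
          ((LinearMap.continuous_of_finiteDimensional (lin2 p u)).comp hcont).add
            continuous_const
        have := hc.tendsto 0
        simp only [zero_smul, add_zero] at this
        exact this.mono_left nhdsWithin_le_nhds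
      have hφt : Filter.Tendsto (fun t : ℂ => ev S' (Sum.elim (b + t • e₀) w))
          (nhdsWithin 0 {0}ᶜ) (nhds (ev S' (Sum.elim b w))) := by
        have hc : Continuous fun t : ℂ => ev S' (Sum.elim (b + t • e₀) w) := by
          refine continuous_pi fun m => (MvPolynomial.continuous_eval (S' m)).comp ?_
          refine continuous_pi fun j => ?_
          rcases j with j | j
          · exact (continuous_apply j).comp hcont
          · exact continuous_const
        have := hc.tendsto 0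
        simp only [zero_smul, add_zero] at this
        exact this.mono_left nhdsWithin_le_nhds
      refine (mem_N_of_tendsto hI hne hx hφt ?_).2
      have hev : ∀ᶠ t in nhdsWithin (0 : ℂ) {0}ᶜ, lin2 p u (b + t • e₀) + w ≠ 0 :=
        hx.eventually_ne hne
      filter_upwards [self_mem_nhdsWithin, hev] with t ht hne'
      have ht0 : t ≠ 0 := ht
      refine ⟨hW _ w hw, hoff _ ?_ hne'⟩
      have h1 : (b + t • e₀) 0 - β * (b + t • e₀) 1 = (b 0 - β * b 1) + t := by
        simp [e₀]; ring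
      rw [h1, hμ, zero_add]
      exact ht0
  · rw [Finset.sum_update_of_mem (Finset.mem_univ i₀), ← Finset.add_sum_erase _ e
      (Finset.mem_univ i₀), hδ, Finset.sdiff_singleton_eq_erase]
    ring

end step

end H79.Hart3
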