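import Pool.Agent.H79.Hart3.Forms
import Pool.Agent.H79.Hart3.LinExt
import Pool.Agent.H79.Hart3.Lines
import Pool.Agent.H79.Hart3.Step
import Pool.Agent.H79.Hart3.Indep
import Pool.Agent.H79.Hart.LinSpace
import Pool.Agent.H18.Sparse.Crit

/-!
# The main theorem
-/

open MvPolynomial

set_option linter.unusedSectionVars false

namespace H79.Hart3

open H89.Hart H79.Hart

variable {ι : Type*} [Fintype ι] [DecidableEq ι]

/-- `(b, w) ↦ b₀ p + b₁ u + w`. -/
noncomputable def aff (p u : ι → ℂ) : (Fin 2 ⊕ ι → ℂ) →ₗ[ℂ] (ι → ℂ) :=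
  lin2 p u ∘ₗ LinearMap.funLeft ℂ ℂ Sum.inl + LinearMap.funLeft ℂ ℂ Sum.inr

theorem aff_elim (p u : ι → ℂ) (b : Fin 2 → ℂ) (w : ι → ℂ) :
    aff p u (Sum.elim b w) = lin2 p u b + w := by
  simp only [aff, LinearMap.add_apply, LinearMap.comp_apply]
  congr 1

/-- `(b, x) ↦ (b, χ x)`. -/
noncomputable def sx {k : ℕ} (χ : (Fin k → ℂ) →ₗ[ℂ] (ι → ℂ)) :
    (Fin 2 ⊕ Fin k → ℂ) →ₗ[ℂ] (Fin 2 ⊕ ι → ℂ) where
  toFun y := Sum.elim (fun i => y (Sum.inl i)) (χ (fun i => y (Sum.inr i)))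
  map_add' x y := by
    have : (fun i => (x + y) (Sum.inr i)) = (fun i => x (Sum.inr i)) + fun i => y (Sum.inr i) := rfl
    rw [this, map_add]
    funext i
    rcases i with i | i <;> rfl
  map_smul' c y := by
    have : (fun i => (c • y) (Sum.inr i)) = c • fun i => y (Sum.inr i) := rfl
    rw [this, map_smul]
    funext i
    rcases i with i | i <;> rfl

theorem sx_elim {k : ℕ} (χ : (Fin k → ℂ) →ₗ[ℂ] (ι → ℂ)) (b : Fin 2 → ℂ) (x : Fin k → ℂ) :
    sx χ (Sum.elim b x) = Sum.elim b (χ x) := rfl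

/-- Sections given by elements of `I`. -/
theorem ef_of_forms {I : Ideal (MvPolynomial ι ℂ)} {r D : ℕ} {p u : ι → ℂ}
    (hinj : Function.Injective (lin2 p u)) (hline : ∀ b, lin2 p u b ∈ cone I)
    (G : Fin r → MvPolynomial ι ℂ) (e : Fin r → ℕ) (hG : ∀ i, G i ∈ I)
    (hGh : ∀ i, (G i).IsHomogeneous (e i + 1)) (he : ∀ i, e i ≤ D)
    (hli : LinearIndependent ℂ (fun i => dif (G i) p)) :
    EF I r D p u 0 e (fun i m => H15.Hart.sub (aff p u) (pderiv m (G i))) (fun a => a.elim0) := by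
  have hev : ∀ i b w, ev (fun m => H15.Hart.sub (aff p u) (pderiv m (G i))) (Sum.elim b w) =
      dif (G i) (lin2 p u b + w) := by
    intro i b w
    funext m
    simp only [ev, dif, H15.Hart.eval_sub, aff_elim]
  refine ⟨he, fun i m => ?_, fun a => a.elim0, fun a => a.elim0, hline, hinj, ?_, ?_⟩
  · exact H15.Hart.sub_homog _ ((hGh i).pderiv)
  · simp only [hev, lin2_single, add_zero]
    exact hli
  · intro W _ _ i b w _ _
    rw [hev]
    exact mem_N.2 ⟨G i, hG i, rfl⟩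

/-- The values of `∑ e i` for which there is an extendable family with few conditions. -/
def Ach (I : Ideal (MvPolynomial ι ℂ)) (r D : ℕ) (p : ι → ℂ) (m : ℕ) : Prop :=
  ∃ (u : ι → ℂ) (c : ℕ) (e : Fin r → ℕ) (s : Fin r → ι → MvPolynomial (Fin 2 ⊕ ι) ℂ)
    (h : Fin c → MvPolynomial (Fin 2 ⊕ ι) ℂ), EF I r D p u c e s h ∧ ∑ i, e i = m ∧
      c + r * m ≤ r * (r * D)

theorem sum_le_of_le {r D : ℕ} {e : Fin r → ℕ} (he : ∀ i, e i ≤ D) : ∑ i, e i ≤ r * D := by
  refine (Finset.sum_le_sum fun i _ => he i).trans ?_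
  simp

/-- Families of minimal degree are independent along the line. -/
theorem indep_of_min {I : Ideal (MvPolynomial ι ℂ)} {r D : ℕ} (hI : Smooth I r) {p u : ι → ℂ}
    {m c : ℕ} {e : Fin r → ℕ} {s : Fin r → ι → MvPolynomial (Fin 2 ⊕ ι) ℂ}
    {h : Fin c → MvPolynomial (Fin 2 ⊕ ι) ℂ} (hE : EF I r D p u c e s h) (hm : ∑ i, e i = m)
    (hc : c + r * m ≤ r * (r * D)) (hmin : ∀ m' < m, ¬ Ach I r D p m') {b : Fin 2 → ℂ}
    (hb : b ≠ 0) : LinearIndependent ℂ (fun i => ev (s i) (Sum.elim b 0)) := by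
  by_contra hdep
  obtain ⟨e', s', h', hE', hsum⟩ := hE.step hI hb hdep
  refine hmin (∑ i, e' i) (by omega) ⟨u, _, e', s', h', hE', rfl, ?_⟩
  have h1 : m = ∑ i, e' i + 1 := by omega
  rw [h1, mul_add, mul_one] at hc
  omega

/-- Independence along the lines through `p`. -/
theorem indep_line {I : Ideal (MvPolynomial ι ℂ)} {r D : ℕ} (hI : Smooth I r) {p : ι → ℂ}
    (hp0 : p ≠ 0) (G : Fin r → MvPolynomial ι ℂ) (e : Fin r → ℕ) (hG : ∀ i, G i ∈ I)
    (hGh : ∀ i, (G i).IsHomogeneous (e i + 1)) (he : ∀ i, e i ≤ D)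
    (hli : LinearIndependent ℂ (fun i => dif (G i) p))
    (hmin : ∀ m' < ∑ i, e i, ¬ Ach I r D p m') {z : ι → ℂ} (hz0 : z ≠ 0)
    (hline : ∀ b, lin2 p z b ∈ cone I) : LinearIndependent ℂ (fun i => dif (G i) z) := by
  by_cases hinj : Function.Injective (lin2 p z)
  · have hE := ef_of_forms (D := D) hinj hline G e hG hGh he hli
    have h1 := indep_of_min hI hE rfl (by
      rw [zero_add]
      exact Nat.mul_le_mul_left _ (sum_le_of_le he)) hmin (b := Pi.single 1 1)
      (by simp)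
    have hev : ∀ i, ev (fun m => H15.Hart.sub (aff p z) (pderiv m (G i)))
        (Sum.elim (Pi.single 1 1) 0) = dif (G i) z := by
      intro i
      funext m
      simp only [ev, dif, H15.Hart.eval_sub, aff_elim]
      congr 1
      simp [lin2_apply]
    simp only [hev] at h1
    exact h1
  · -- `z` is a multiple of `p`
    obtain ⟨a, ha⟩ : ∃ a : ℂ, z = a • p := by
      rw [← LinearMap.ker_eq_bot, LinearMap.ker_eq_bot'] at hinj
      push Not at hinj
      obtain ⟨b, hb, hb0⟩ := hinj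
      rw [lin2_apply] at hb
      have hb1 : b 1 ≠ 0 := by
        intro h1
        rw [h1, zero_smul, add_zero] at hb
        have h0 := (smul_eq_zero.1 hb).resolve_right hp0
        apply hb0
        funext i
        fin_cases i
        · exact h0
        · exact h1
      refine ⟨-(b 1)⁻¹ * b 0, ?_⟩
      have h2 : b 1 • z = -(b 0 • p) := by
        rw [eq_neg_iff_add_eq_zero, add_comm]; exact hb
      have h3 := congrArg (fun v => (b 1)⁻¹ • v) h2
      simp only [smul_smul, smul_neg, inv_mul_cancel₀ hb1, one_smul] at h3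
      rw [h3, neg_mul, neg_smul]
    have ha0 : a ≠ 0 := by
      rintro rfl
      rw [zero_smul] at ha
      exact hz0 ha
    have h1 : ∀ i, dif (G i) z = a ^ (e i) • dif (G i) p := by
      intro i
      funext m
      rw [ha]
      simp only [dif, Pi.smul_apply, smul_eq_mul]
      have := (hGh i).pderiv (i := m)
      rw [Nat.add_sub_cancel] at this
      exact H89.Hart.eval_smul_homog this a p
    rw [Fintype.linearIndependent_iff]
    intro c hc i
    simp only [h1, smul_smul] at hc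
    have h2 := Fintype.linearIndependent_iff.1 hli (fun i => c i * a ^ e i) hc i
    exact (mul_eq_zero.1 h2).resolve_right (pow_ne_zero _ ha0)

/-- Extension of a minimal family to a larger linear subspace. -/
theorem exists_big {I : Ideal (MvPolynomial ι ℂ)} {r D k : ℕ} (hI : Smooth I r) {p u : ι → ℂ}
    (hp : p ∈ cone I) (hp0 : p ≠ 0) (F : Fin r → MvPolynomial ι ℂ) (hF : ∀ j, F j ∈ I)
    (hFh : ∀ j, (F j).IsHomogeneous (D + 1)) (hFli : LinearIndependent ℂ (fun j => dif (F j) p))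
    {c : ℕ} {e : Fin r → ℕ} {s : Fin r → ι → MvPolynomial (Fin 2 ⊕ ι) ℂ}
    {h : Fin c → MvPolynomial (Fin 2 ⊕ ι) ℂ} (hE : EF I r D p u c e s h)
    (hc : c ≤ r * (r * D))
    (hN : 2 + k + (r * Nat.multichoose (2 + k) D + r * (r * D) * Nat.multichoose (2 + k) (D - 1)) ≤
      Fintype.card ι)
    (hli : ∀ b, b ≠ 0 → LinearIndependent ℂ (fun i => ev (s i) (Sum.elim b 0))) :
    ∃ (ψ : (Fin 2 ⊕ Fin k → ℂ) →ₗ[ℂ] (ι → ℂ))
      (s' : Fin r → ι → MvPolynomial (Fin 2 ⊕ Fin k) ℂ), Function.Injective ψ ∧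
      (∀ y, ψ y ∈ cone I) ∧ ψ (Sum.elim (Pi.single 0 1) 0) = p ∧ (∀ i, Sec I ψ (e i) (s' i)) ∧
      ∀ y, y ≠ 0 → LinearIndependent ℂ (fun i => ev (s' i) y) := by
  classical
  -- the linear space
  let H : Fin r ⊕ Fin c → MvPolynomial (Fin 2 ⊕ ι) ℂ :=
    Sum.elim (fun j => H15.Hart.sub (aff p u) (F j)) h
  have hcard : Module.finrank ℂ (LinearMap.range (lin2 p u)) = 2 := by
    rw [LinearMap.finrank_range_of_inj hE.inj]
    simp
  obtain ⟨χ, hχB, hχ⟩ := exists_lin_ext (LinearMap.range (lin2 p u)) H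
    (Sum.elim (fun _ => D) (fun _ => D - 1)) (by
      rintro (j | a)
      · exact H15.Hart.sub_homog _ (hFh j)
      · have hD : D - 1 + 1 = D := by
          have h1 : 0 < c := a.pos
          rcases Nat.eq_zero_or_pos D with h2 | h2
          · rw [h2] at hc
            simp only [mul_zero] at hc
            omega
          · omega
        simp only [Sum.elim_inr, H, hD]
        exact hE.hh a)
    (by
      rintro (j | a) b
      · simp only [H, Sum.elim_inl, H15.Hart.eval_sub, aff_elim, add_zero]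
        exact hE.line b _ (hF j)
      · exact hE.hh0 a b) k
    (by
      rw [hcard, Fintype.sum_sum_type]
      simp only [Sum.elim_inl, Sum.elim_inr, Finset.sum_const, Finset.card_univ,
        Fintype.card_fin, smul_eq_mul]
      refine le_trans ?_ hN
      gcongr)
  let ψ : (Fin 2 ⊕ Fin k → ℂ) →ₗ[ℂ] (ι → ℂ) := aff p u ∘ₗ sx χ
  have hψ : ∀ b x, ψ (Sum.elim b x) = lin2 p u b + χ x := by
    intro b x
    simp only [ψ, LinearMap.comp_apply, sx_elim, aff_elim]
  have helim : ∀ y : Fin 2 ⊕ Fin k → ℂ, y = Sum.elim (y ∘ Sum.inl) (y ∘ Sum.inr) :=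
    fun y => (Sum.elim_comp_inl_inr y).symm
  have hψinj : Function.Injective ψ := by
    rw [← LinearMap.ker_eq_bot, LinearMap.ker_eq_bot']
    intro y hy
    rw [helim y, hψ] at hy
    have h1 : χ (y ∘ Sum.inr) ∈ LinearMap.range (lin2 p u) := by
      refine ⟨-(y ∘ Sum.inl), ?_⟩
      rw [map_neg, neg_eq_iff_add_eq_zero]
      exact hy
    have h2 := hχB _ h1
    rw [h2, map_zero, add_zero] at hy
    have h3 : y ∘ Sum.inl = 0 := hE.inj (by rw [hy, map_zero])
    rw [helim y, h2, h3]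
    funext i
    rcases i with i | i <;> rfl
  have hψI : ∀ y, ψ y ∈ cone I := by
    intro y
    have h1 := line_mem hI F hF hp hp0 hFli (ψ y - p) (fun j t => by
      have h2 : p + t • (ψ y - p) = ψ (Sum.elim (Pi.single 0 1) 0 +
          t • (y - Sum.elim (Pi.single 0 1) 0)) := by
        rw [map_add, map_smul, map_sub, hψ, lin2_single, map_zero, add_zero]
      have h3 := hχ (Sum.inl j) ((Sum.elim (Pi.single 0 1) 0 +
          t • (y - Sum.elim (Pi.single 0 1) 0) : Fin 2 ⊕ Fin k → ℂ) ∘ Sum.inl)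
          ((Sum.elim (Pi.single 0 1) 0 +
          t • (y - Sum.elim (Pi.single 0 1) 0) : Fin 2 ⊕ Fin k → ℂ) ∘ Sum.inr)
      simp only [H, Sum.elim_inl, H15.Hart.eval_sub, aff_elim] at h3
      rw [h2, helim (Sum.elim (Pi.single 0 1) 0 +
          t • (y - Sum.elim (Pi.single 0 1) 0) : Fin 2 ⊕ Fin k → ℂ), hψ]
      exact h3) 1
    rw [one_smul] at h1
    simpa using h1
  have hev : ∀ i y, ev (fun m => H15.Hart.sub (sx χ) (s i m)) y = ev (s i) (sx χ y) := by
    intro i y
    funext m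
    simp only [ev, H15.Hart.eval_sub]
  have hSec : ∀ i, Sec I ψ (e i) (fun m => H15.Hart.sub (sx χ) (s i m)) := by
    intro i
    refine ⟨fun m => H15.Hart.sub_homog _ (hE.hs i m), fun y hy => ?_⟩
    have h0 : ψ y ≠ 0 := fun h0 => hy (hψinj (by rw [h0, map_zero]))
    rw [hev]
    have h1 := hE.good (LinearMap.range χ) (by
        rintro b _ ⟨x, rfl⟩
        rw [← hψ]
        exact hψI _) (by
        rintro a b _ ⟨x, rfl⟩
        exact hχ (Sum.inr a) b x) i (y ∘ Sum.inl) (χ (y ∘ Sum.inr)) ⟨_, rfl⟩ (by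
        rw [← hψ, ← helim]
        exact h0)
    rw [← hψ, ← helim] at h1
    exact h1
  refine ⟨ψ, fun i m => H15.Hart.sub (sx χ) (s i m), hψinj, hψI, ?_, hSec, ?_⟩
  · rw [hψ, lin2_single, map_zero, add_zero]
  · let B : (Fin 2 → ℂ) →ₗ[ℂ] (Fin 2 ⊕ Fin k → ℂ) :=
      { toFun := fun b => Sum.elim b 0
        map_add' := fun b c => by funext i; rcases i with i | i <;> simp
        map_smul' := fun a b => by funext i; rcases i with i | i <;> simp }
    refine indep_linear hI hψinj hψI e _ hSec B (fun b c hbc => ?_) fun b hb => ?_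
    · funext i
      exact congrFun hbc (Sum.inl i)
    · have h1 := hli b hb
      have h2 : ∀ i, ev (fun m => H15.Hart.sub (sx χ) (s i m)) (B b) =
          ev (s i) (Sum.elim b 0) := by
        intro i
        rw [hev]
        change ev (s i) (sx χ (Sum.elim b 0)) = _
        rw [sx_elim, map_zero]
      simp only [h2]
      exact h1

/-- The main theorem. -/
theorem main {I : Ideal (MvPolynomial ι ℂ)} {r D : ℕ} (hr : 1 ≤ r) (hI : Smooth I r)
    (F : Fin r → MvPolynomial ι ℂ) (hF : ∀ i, F i ∈ I) (d : Fin r → ℕ)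
    (hFd : ∀ i, (F i).IsHomogeneous (d i)) (hd : ∀ i, d i ≤ D + 1) {p : ι → ℂ}
    (hp : p ∈ cone I) (hp0 : p ≠ 0) (hli : LinearIndependent ℂ (fun i => dif (F i) p))
    (hN : 2 + min r (D + 1) + (r * Nat.multichoose (2 + min r (D + 1)) D +
      r * (r * D) * Nat.multichoose (2 + min r (D + 1)) (D - 1)) ≤ Fintype.card ι)
    (hN' : r * (D + 1) + 2 * r + 1 ≤ Fintype.card ι) :
    ∃ G : Fin r → MvPolynomial ι ℂ, (∀ i, G i ∈ I) ∧ (∀ i, ∃ d ≤ D + 1, (G i).IsHomogeneous d) ∧
      (∀ x, (∀ i, eval x (G i) = 0) → x ∈ cone I) ∧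
      ∀ x ∈ cone I, x ≠ 0 → LinearIndependent ℂ (fun i => dif (G i) x) := by
  classical
  obtain ⟨k₀, hk₀⟩ : ∃ k, p k ≠ 0 := by
    by_contra hc
    push Not at hc
    exact hp0 (funext hc)
  -- forms of degree `D + 1`
  let L : MvPolynomial ι ℂ := C (p k₀)⁻¹ * X k₀
  have hLp : eval p L = 1 := by simp [L, inv_mul_cancel₀ hk₀]
  have hLh : L.IsHomogeneous 1 := by
    have := (isHomogeneous_C ι (p k₀)⁻¹).mul (isHomogeneous_X ℂ k₀)
    simpa using this
  let F' : Fin r → MvPolynomial ι ℂ := fun i => L ^ (D + 1 - d i) * F i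
  have hF' : ∀ i, F' i ∈ I := fun i => I.mul_mem_left _ (hF i)
  have hF'h : ∀ i, (F' i).IsHomogeneous (D + 1) := by
    intro i
    have h1 := (hLh.pow (D + 1 - d i)).mul (hFd i)
    have h2 : 1 * (D + 1 - d i) + d i = D + 1 := by
      have := hd i
      omega
    rwa [h2] at h1
  have hF'p : ∀ i, eval p (F' i) = 0 := fun i => hp _ (hF' i)
  have hdif : ∀ i, dif (F' i) p = dif (F i) p := by
    intro i
    rw [dif_mul, hp _ (hF i), zero_smul, add_zero, map_pow, hLp, one_pow, one_smul]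
  have hli' : LinearIndependent ℂ (fun i => dif (F' i) p) := by
    simp only [hdif]
    exact hli
  -- a line through `p`
  have hmc : Nat.multichoose (1 + 1) D = D + 1 := by
    rw [Nat.multichoose_two]
  have hrD : r * (D + 1) < Fintype.card ι - 1 := by omega
  obtain ⟨ψ, hψ, hψ0, hψF⟩ := exists_lin_space F' D hF'h hp0 hF'p 1 (Or.inl (by
    rw [hmc, Fintype.card_fin]
    omega))
  set u := ψ (Pi.single 1 1) with hu
  have hψl : ∀ b : Fin 2 → ℂ, ψ b = lin2 p u b := by
    intro b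
    have hb : b = b 0 • (Pi.single 0 1 : Fin 2 → ℂ) + b 1 • (Pi.single 1 1 : Fin 2 → ℂ) := by
      funext i
      fin_cases i <;> simp
    conv_lhs => rw [hb, map_add, map_smul, map_smul, hψ0]
    rw [lin2_apply]
  have hinj : Function.Injective (lin2 p u) := by
    have : (lin2 p u : (Fin 2 → ℂ) → (ι → ℂ)) = ψ := by
      funext b; exact (hψl b).symm
    rw [this]
    exact hψ
  have hline : ∀ b, lin2 p u b ∈ cone I := by
    intro b
    have h1 := line_mem hI F' hF' hp hp0 hli' (lin2 p u b - p) (fun i t => by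
      have : p + t • (lin2 p u b - p) = ψ (Pi.single 0 1 + t • (b - Pi.single 0 1)) := by
        rw [map_add, map_smul, map_sub, hψ0, hψl]
      rw [this]
      exact hψF _ i) 1
    rw [one_smul] at h1
    simpa using h1
  have hA : ∃ m, Ach I r D p m := by
    refine ⟨∑ _i : Fin r, D, u, 0, fun _ => D, _, _,
      ef_of_forms hinj hline F' (fun _ => D) hF' hF'h (fun _ => le_rfl) hli', rfl, ?_⟩
    rw [zero_add]
    exact Nat.mul_le_mul_left _ (sum_le_of_le fun _ => le_rfl)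
  obtain ⟨m, ⟨u', c, e, s, h, hE, hem, hc⟩, hmin⟩ : ∃ m, Ach I r D p m ∧ ∀ m' < m, ¬ Ach I r D p m' :=
    ⟨Nat.find hA, Nat.find_spec hA, fun m' hm' => Nat.find_min hA hm'⟩
  have hind : ∀ b, b ≠ 0 → LinearIndependent ℂ (fun i => ev (s i) (Sum.elim b 0)) :=
    fun b hb => indep_of_min hI hE hem hc hmin hb
  obtain ⟨ψ', s', hψ'inj, hψ'I, hψ'p, hs', hli''⟩ := exists_big (k := min r (D + 1)) hI hp hp0 F' hF'
    hF'h hli' hE (by omega) hN hind
  have hy₀ : (Sum.elim (Pi.single 0 1) 0 : Fin 2 ⊕ Fin (min r (D + 1)) → ℂ) ≠ 0 := by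
    intro h0
    have := congrFun h0 (Sum.inl 0)
    simp at this
  obtain ⟨G, hG, hGh, hGli⟩ := exists_forms (D := D) hI
    (by rw [Fintype.card_sum, Fintype.card_fin, Fintype.card_fin]; omega) hψ'inj hψ'I e s' hs' hli''
    F' hF' hF'h hy₀ (by rw [hψ'p]; exact hli')
  rw [hψ'p] at hGli
  have hall := indep_of_lines hI hp hp0 F' hF' hF'h hli' hN' G e hG hGh
    (fun z hz0 hz => indep_line hI hp0 G e hG hGh hE.le hGli (by rw [hem]; exact hmin) hz0 hz)
  refine ⟨G, hG, fun i => ⟨e i + 1, by have := hE.le i; omega, hGh i⟩, fun x hx => ?_, hall⟩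
  exact H18.Sparse.zeros_mem hI G hG (fun i => ⟨_, hGh i⟩) hall (by omega) hp hp0 hx

end H79.Hart3
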