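import Pool.Agent.H79.Hart.PrimeT
import Pool.Agent.H79.Hart.Grading

/-!
HB3-4 (specification: helper79).  The versions of `T_vanish`, `T_nzd`, `T_nzd₂` for elements of
pure degree `a` in `z`.
-/

open MvPolynomial

set_option autoImplicit false
set_option linter.unusedSectionVars false

namespace H79.Hart3

open H89.Hart H79.Hart

namespace PTa

open H79.Hart.PT

variable {α μ : Type*} [Fintype α] [DecidableEq α] [Fintype μ] [DecidableEq μ]

theorem zc_zero' (a : ℕ) : zc a (0 : MvPolynomial (α ⊕ μ) ℂ) = 0 := by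
  unfold zc; rw [map_zero, Polynomial.coeff_zero]

theorem zc_mul (a : ℕ) (f g : MvPolynomial (α ⊕ μ) ℂ) :
    zc a (f * g) = ∑ x ∈ Finset.HasAntidiagonal.antidiagonal a, zc x.1 f * zc x.2 g := by
  unfold zc; rw [map_mul, Polynomial.coeff_mul]

theorem zc_rename_mul (a : ℕ) (t : MvPolynomial α ℂ) (f : MvPolynomial (α ⊕ μ) ℂ) :
    zc a (rename Sum.inl t * f) = rename Sum.inl t * zc a f := by
  unfold zc; rw [map_mul, Xi_rename, Polynomial.coeff_C_mul]

theorem zc_X_mul (a : ℕ) (b : α) (f : MvPolynomial (α ⊕ μ) ℂ) :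
    zc a (X (Sum.inl b) * f) = X (Sum.inl b) * zc a f := by
  have := zc_inl_mul a 1 b f
  simpa using this

theorem zc_mul_X (a : ℕ) (b : α) (f : MvPolynomial (α ⊕ μ) ℂ) :
    zc a (f * X (Sum.inl b)) = zc a f * X (Sum.inl b) := by
  rw [mul_comm, zc_X_mul, mul_comm]

theorem zc_mul_TT_zero (f : MvPolynomial (α ⊕ μ) ℂ) (t : μ → MvPolynomial α ℂ) :
    zc 0 (f * TT t) = 0 := by
  unfold zc
  rw [map_mul, Xi_TT, ← mul_assoc, Polynomial.mul_coeff_zero, Polynomial.coeff_X_zero, mul_zero]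

/-- the largest graded ideal (for the degree in `z`) inside `J` -/
def grI (J : Ideal (MvPolynomial (α ⊕ μ) ℂ)) : Ideal (MvPolynomial (α ⊕ μ) ℂ) where
  carrier := {f | ∀ a, zc a f ∈ J}
  add_mem' := by
    intro f g hf hg a
    rw [zc_add]; exact add_mem (hf a) (hg a)
  zero_mem' := by
    intro a
    rw [zc_zero']; exact zero_mem _
  smul_mem' := by
    intro c f hf a
    rw [smul_eq_mul, zc_mul]
    exact Ideal.sum_mem _ fun x _ => Ideal.mul_mem_left _ _ (hf _)

theorem mem_grI {J : Ideal (MvPolynomial (α ⊕ μ) ℂ)} {f : MvPolynomial (α ⊕ μ) ℂ} :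
    f ∈ grI J ↔ ∀ a, zc a f ∈ J := Iff.rfl

theorem zc_mem_XB {B : Finset α} {f : MvPolynomial (α ⊕ μ) ℂ} (hf : f ∈ XB α μ B) (a : ℕ) :
    zc a f ∈ XB α μ B := by
  have h : XB α μ B ≤ grI (XB α μ B) := by
    conv_lhs => rw [XB]
    rw [Ideal.span_le]
    rintro _ ⟨b, hb, rfl⟩ a
    change zc a (X (Sum.inl b)) ∈ _
    have h1 := zc_X_mul (μ := μ) a b 1
    rw [mul_one] at h1
    rw [h1]
    exact Ideal.mul_mem_right _ _ (X_mem_XB hb)
  exact h hf a

theorem zc_mem_JT {r : ℕ} {t : Fin r → μ → MvPolynomial α ℂ} {f : MvPolynomial (α ⊕ μ) ℂ}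
    (hf : f ∈ JT t) (a : ℕ) : zc a f ∈ JT t := by
  have h : JT t ≤ grI (JT t) := by
    conv_lhs => rw [JT]
    rw [Ideal.span_le]
    rintro _ ⟨i, rfl⟩ a
    change zc a (TT (t i)) ∈ _
    rw [zc_TT]
    split_ifs
    · exact Ideal.subset_span ⟨i, rfl⟩
    · exact zero_mem _
  exact h hf a

theorem zc_mem_JB {r : ℕ} {t : Fin r → μ → MvPolynomial α ℂ} {B : Finset α}
    {f : MvPolynomial (α ⊕ μ) ℂ} (hf : f ∈ JB t B) (a : ℕ) : zc a f ∈ JB t B := by
  rw [JB] at hf ⊢
  obtain ⟨y, hy, w, hw, rfl⟩ := Submodule.mem_sup.1 hf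
  rw [zc_add]
  exact Submodule.add_mem_sup (zc_mem_JT hy a) (zc_mem_XB hw a)

/-- the part of degree `0` of an element of `JT t` vanishes -/
theorem zc_zero_JT {r : ℕ} {t : Fin r → μ → MvPolynomial α ℂ} {f : MvPolynomial (α ⊕ μ) ℂ}
    (hf : f ∈ JT t) : zc 0 f = 0 := by
  rw [JT] at hf
  induction hf using Submodule.span_induction with
  | mem x hx =>
    obtain ⟨i, rfl⟩ := hx
    change zc 0 (TT (t i)) = 0
    rw [zc_TT, if_neg (by norm_num)]
  | zero => exact zc_zero' 0
  | add x y _ _ hx hy => rw [zc_add, hx, hy, add_zero]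
  | smul a x _ hx =>
    have h1 : zc 0 (a * x) = zc 0 a * zc 0 x := by
      unfold zc; rw [map_mul, Polynomial.mul_coeff_zero]
    rw [smul_eq_mul, h1, hx, mul_zero]

/-- `f` of degree `0` in `z` in `JB t B` is in `XB B`. -/
theorem mem_XB_of_zero {r : ℕ} {t : Fin r → μ → MvPolynomial α ℂ} {B : Finset α}
    {f : MvPolynomial (α ⊕ μ) ℂ} (hf : f ∈ JB t B) (h0 : zc 0 f = f) : f ∈ XB α μ B := by
  rw [JB] at hf
  obtain ⟨y, hy, w, hw, hyw⟩ := Submodule.mem_sup.1 hf
  rw [← h0, ← hyw, zc_add, zc_zero_JT hy, zero_add]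
  exact zc_mem_XB hw 0

/-- multiplication by `X (inl b)`, `b ∉ B`, is injective modulo `JB t B` in degree `a` -/
def PNa (a : ℕ) {r : ℕ} (t : Fin r → μ → MvPolynomial α ℂ) (B : Finset α) : Prop :=
  ∀ b ∉ B, ∀ f, zc a f = f → X (Sum.inl b) * f ∈ JB t B → f ∈ JB t B

/-- Nullstellensatz for `JB t B` in degree `a` -/
def PVa (a : ℕ) {r : ℕ} (t : Fin r → μ → MvPolynomial α ℂ) (B : Finset α) : Prop :=
  ∀ f, zc a f = f → (∀ (m : α → ℂ) (z : μ → ℂ), m ≠ 0 → (∀ b ∈ B, m b = 0) →
    (∀ i, eval (Sum.elim m z) (TT (t i)) = 0) → eval (Sum.elim m z) f = 0) → f ∈ JB t B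

theorem base_zero {r : ℕ} (t : Fin r → μ → MvPolynomial α ℂ) (B : Finset α)
    (hB : B.card + 1 ≤ Fintype.card α) : PNa 0 t B ∧ PVa 0 t B := by
  have hb := base (fun i : Fin 0 => (i.elim0 : μ → MvPolynomial α ℂ)) B hB
  have hX : XB α μ B ≤ JB t B := le_sup_right
  constructor
  · intro b hbB f hf0 hf
    have h1 : X (Sum.inl b) * f ∈ XB α μ B := mem_XB_of_zero hf (by rw [zc_X_mul, hf0])
    have h2 := hb.1 b hbB f
    rw [JB_zero] at h2
    exact hX (h2 h1)
  · intro f hf0 hf
    have h2 := hb.2 f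
    rw [JB_zero] at h2
    refine hX (h2 fun m z hm hmB _ => ?_)
    have h3 : eval (Sum.elim m 0) f = 0 := by
      refine hf m 0 hm hmB fun i => ?_
      rw [eval_TT, dotProduct_zero]
    have h4 := eval_zc 0 f m z
    rw [hf0] at h4
    rw [h4, Polynomial.coeff_zero_eq_eval_zero, eval_ln, zero_smul, add_zero, h3]

theorem step {r a : ℕ} (t : Fin (r + 1) → μ → MvPolynomial α ℂ)
    (hli : ∀ m, m ≠ 0 → LinearIndependent ℂ (fun i => fun j => eval m (t i j)))
    (ih : ∀ B : Finset α, B.card + min r a + 1 ≤ Fintype.card α →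
      PVa a (fun i : Fin r => t i.castSucc) B)
    (ih' : ∀ B : Finset α, B.card + min r (a + 1) + 1 ≤ Fintype.card α →
      PNa (a + 1) (fun i : Fin r => t i.castSucc) B)
    (B : Finset α) (hB : B.card + min (r + 1) (a + 1) + 1 ≤ Fintype.card α) :
    PNa (a + 1) t B ∧ PVa (a + 1) t B := by
  -- (T)
  have hT : ∀ B' : Finset α, B'.card + min r a + 1 ≤ Fintype.card α → ∀ c, zc a c = c →
      c * TT (t (Fin.last r)) ∈ JB (fun i : Fin r => t i.castSucc) B' →
      c ∈ JB (fun i : Fin r => t i.castSucc) B' := by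
    intro B' hB' c hca hc
    apply ih B' hB' c hca
    intro m z hm hmB ht
    obtain ⟨l, hl⟩ := exists_dual _ (hli m hm)
    have hpt : ∀ s : ℂ, Sum.elim m z + s • (Sum.elim 0 (l (Fin.last r)) : α ⊕ μ → ℂ) =
        Sum.elim m (z + s • l (Fin.last r)) := by
      intro s
      funext v
      rcases v with v | v <;> simp
    have h1 : ∀ s : ℂ, (ln (Sum.elim m z) (Sum.elim 0 (l (Fin.last r))) c).eval s *
        (ln (Sum.elim m z) (Sum.elim 0 (l (Fin.last r))) (TT (t (Fin.last r)))).eval s = 0 := by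
      intro s
      rw [eval_ln, eval_ln, ← map_mul, hpt]
      refine vanish _ B' hc hmB fun i => ?_
      rw [eval_TT, dotProduct_add, dotProduct_smul, hl i.castSucc (Fin.last r), if_neg
        (Fin.castSucc_lt_last i).ne, smul_zero, add_zero, ← eval_TT]
      exact ht i
    have h2 : ln (Sum.elim m z) (Sum.elim 0 (l (Fin.last r))) c *
        ln (Sum.elim m z) (Sum.elim 0 (l (Fin.last r))) (TT (t (Fin.last r))) = 0 := by
      apply Polynomial.funext
      intro s
      rw [Polynomial.eval_mul, h1, Polynomial.eval_zero]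
    have h3 : ln (Sum.elim m z) (Sum.elim 0 (l (Fin.last r))) (TT (t (Fin.last r))) ≠ 0 := by
      intro h0
      have h4 : ∀ s : ℂ, eval (Sum.elim m z) (TT (t (Fin.last r))) + s = 0 := by
        intro s
        have h5 := congrArg (Polynomial.eval s) h0
        rw [eval_ln, hpt, eval_TT, dotProduct_add, dotProduct_smul,
          hl (Fin.last r) (Fin.last r), if_pos rfl, ← eval_TT, Polynomial.eval_zero] at h5
        simpa using h5
      have h5 := h4 0
      have h6 := h4 1
      rw [add_zero] at h5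
      rw [h5] at h6
      norm_num at h6
    have h4 := (mul_eq_zero.1 h2).resolve_right h3
    have h5 := eval_ln (Sum.elim m z) (Sum.elim 0 (l (Fin.last r))) c 0
    rw [h4, Polynomial.eval_zero, zero_smul, add_zero] at h5
    exact h5.symm
  -- (N)
  have hN : PNa (a + 1) t B := by
    intro b hb f hfa hf
    rw [JB_succ] at hf
    obtain ⟨y, hy, w, hw, hyw⟩ := Submodule.mem_sup.1 hf
    obtain ⟨A, rfl⟩ := Ideal.mem_span_singleton'.1 hw
    -- homogeneous parts
    have hyw' : zc (a + 1) y + zc a A * TT (t (Fin.last r)) = X (Sum.inl b) * f := by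
      have := congrArg (zc (a + 1)) hyw
      rwa [zc_add, zc_mul_TT, zc_X_mul, hfa] at this
    have hy' := zc_mem_JB hy (a + 1)
    have hAA : zc a (zc a A) = zc a A := by rw [zc_zc, if_pos rfl]
    generalize zc a A = A' at hyw' hAA
    generalize zc (a + 1) y = y' at hyw' hy'
    have hle : JB (fun i : Fin r => t i.castSucc) B ≤
        JB (fun i : Fin r => t i.castSucc) (insert b B) := by
      rw [JB_insert]; exact le_sup_left
    have h1 : A' * TT (t (Fin.last r)) ∈ JB (fun i : Fin r => t i.castSucc) (insert b B) := by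
      have : A' * TT (t (Fin.last r)) = X (Sum.inl b) * f - y' := by rw [← hyw']; ring
      rw [this]
      refine sub_mem ?_ (hle hy')
      refine Ideal.mul_mem_right _ _ ?_
      exact (le_sup_right : XB α μ (insert b B) ≤ _) (X_mem_XB (Finset.mem_insert_self b B))
    have h2 := hT (insert b B) (by rw [Finset.card_insert_of_notMem hb]; omega) A' hAA h1
    rw [JB_insert] at h2
    obtain ⟨c', hc', w', hw', hcw⟩ := Submodule.mem_sup.1 h2
    obtain ⟨c, rfl⟩ := Ideal.mem_span_singleton'.1 hw'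
    have hcw' : zc a c' + zc a c * X (Sum.inl b) = A' := by
      have := congrArg (zc a) hcw
      rwa [zc_add, zc_mul_X, hAA] at this
    have hc'' := zc_mem_JB hc' a
    have hcc : zc a (zc a c) = zc a c := by rw [zc_zc, if_pos rfl]
    generalize zc a c = d at hcw' hcc
    generalize zc a c' = d' at hcw' hc''
    have h3 : X (Sum.inl b) * (f - d * TT (t (Fin.last r))) ∈
        JB (fun i : Fin r => t i.castSucc) B := by
      have : X (Sum.inl b) * (f - d * TT (t (Fin.last r))) = y' + d' * TT (t (Fin.last r)) := by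
        rw [mul_sub, ← hyw', ← hcw']; ring
      rw [this]
      exact add_mem hy' (Ideal.mul_mem_right _ _ hc'')
    have h4 := ih' B (by omega) b hb _ (by rw [zc_sub, hfa, zc_mul_TT, hcc]) h3
    rw [JB_succ]
    have : f = (f - d * TT (t (Fin.last r))) + d * TT (t (Fin.last r)) := by ring
    rw [this]
    exact Submodule.add_mem_sup h4 (Ideal.mul_mem_left _ _ (Ideal.mem_span_singleton_self _))
  refine ⟨hN, ?_⟩
  -- (V)
  intro f hfa hf
  obtain ⟨b, hb⟩ : ∃ b, b ∉ B := by
    by_contra hcon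
    push Not at hcon
    have : B = Finset.univ := Finset.eq_univ_of_forall hcon
    rw [this, Finset.card_univ] at hB
    omega
  have hJT : JT t ≤ JB t B := le_sup_left
  have hXB : XB α μ B ≤ JB t B := le_sup_right
  let U : Ideal (MvPolynomial (α ⊕ μ) ℂ) :=
    { carrier := {u | u * f ∈ JB t B}
      add_mem' := by
        intro x y hx hy
        change (x + y) * f ∈ JB t B
        rw [add_mul]
        exact add_mem hx hy
      zero_mem' := by
        change 0 * f ∈ JB t B
        rw [zero_mul]; exact zero_mem _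
      smul_mem' := by
        intro c x hx
        change (c * x) * f ∈ JB t B
        rw [mul_assoc]
        exact Ideal.mul_mem_left _ _ hx }
  have hU : ∀ u, u ∈ U ↔ u * f ∈ JB t B := fun u => Iff.rfl
  have hDU : ∀ l : Fin (r + 1) → μ → ℂ, ∃ M, DD t l ^ M ∈ U := by
    intro l
    obtain ⟨M, g, h1, h2⟩ := exists_g t l f
    refine ⟨M + 1, ?_⟩
    have h3 : X (Sum.inl b) * (DD t l * g) ∈ JB t B := by
      apply hXB
      apply mem_XB_of_vanish
      intro m z hm
      rw [map_mul, map_mul, eval_X, Sum.elim_inl]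
      by_cases h0 : m = 0
      · rw [h0]; simp
      by_cases hD : eval (Sum.elim m z) (DD t l) = 0
      · rw [hD]; ring
      · rw [h2 m z hD, hf m (sh t l m z) h0 hm (TT_sh t l hD)]
        ring
    rw [hU]
    apply hN b hb
    · have e : DD t l ^ (M + 1) = (rename Sum.inl ((AA t l).det ^ (M + 1)) :
          MvPolynomial (α ⊕ μ) ℂ) := by rw [DD, map_pow]
      rw [e, zc_rename_mul, hfa]
    · have : X (Sum.inl b) * (DD t l ^ (M + 1) * f) =
          X (Sum.inl b) * DD t l * (DD t l ^ M * f - g) + X (Sum.inl b) * (DD t l * g) := by ring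
      rw [this]
      exact add_mem (Ideal.mul_mem_left _ _ (hJT h1)) h3
  have hrad : (X (Sum.inl b) : MvPolynomial (α ⊕ μ) ℂ) ∈ U.radical := by
    rw [← vanishingIdeal_zeroLocus_eq_radical (K := ℂ), mem_vanishingIdeal_iff]
    intro x hx
    by_contra hxb
    rw [aeval_X] at hxb
    have hx' : ∀ p ∈ U, eval (Sum.elim (x ∘ Sum.inl) (x ∘ Sum.inr)) p = 0 := by
      intro p hp
      rw [Sum.elim_comp_inl_inr]
      simpa [aeval_eq_eval] using hx p hp
    have hm : x ∘ Sum.inl ≠ 0 := by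
      intro h0
      exact hxb (congrFun h0 b)
    obtain ⟨l, hl⟩ := exists_dual _ (hli _ hm)
    obtain ⟨M, hM⟩ := hDU l
    have h1 := hx' _ hM
    rw [map_pow, DD, eval_rename_inl] at h1
    have h2 : eval (x ∘ Sum.inl) (AA t l).det = 1 := by
      rw [RingHom.map_det]
      have : (eval (x ∘ Sum.inl)).mapMatrix (AA t l) = 1 := by
        ext k c
        rw [RingHom.mapMatrix_apply, Matrix.map_apply, AA, Matrix.of_apply, map_sum]
        have := hl k c
        rw [dotProduct] at this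
        simp only [map_mul, eval_C]
        rw [this, Matrix.one_apply]
      rw [this, Matrix.det_one]
    rw [h2, one_pow] at h1
    exact one_ne_zero h1
  obtain ⟨n, hn⟩ := hrad
  rw [hU] at hn
  induction n with
  | zero => simpa using hn
  | succ n ihn =>
    apply ihn
    apply hN b hb
    · rw [zc_inl_mul, hfa]
    have : X (Sum.inl b) * (X (Sum.inl b) ^ n * f) = X (Sum.inl b) ^ (n + 1) * f := by ring
    rw [this]
    exact hn

theorem claim (r : ℕ) (a : ℕ) (t : Fin r → μ → MvPolynomial α ℂ)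
    (hli : ∀ m, m ≠ 0 → LinearIndependent ℂ (fun i => fun j => eval m (t i j)))
    (B : Finset α) (hB : B.card + min r a + 1 ≤ Fintype.card α) : PNa a t B ∧ PVa a t B := by
  induction r generalizing a B with
  | zero =>
    have h := base t B (by omega)
    exact ⟨fun b hb f _ hf => h.1 b hb f hf, fun f _ hf => h.2 f hf⟩
  | succ r ih =>
    rcases a with _ | a
    · exact base_zero t B (by omega)
    · have hli' : ∀ m, m ≠ 0 →
          LinearIndependent ℂ (fun i : Fin r => fun j => eval m (t i.castSucc j)) :=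
        fun m hm => (hli m hm).comp _ (Fin.castSucc_injective r)
      exact step t hli (fun B' hB' => (ih a (fun i => t i.castSucc) hli' B' hB').2)
        (fun B' hB' => (ih (a + 1) (fun i => t i.castSucc) hli' B' hB').1) B hB

end PTa

section PT

variable {α μ : Type*} [Fintype α] [DecidableEq α] [Fintype μ] [DecidableEq μ]

theorem T_vanish' {r : ℕ} (t : Fin r → μ → MvPolynomial α ℂ)
    (hli : ∀ m, m ≠ 0 → LinearIndependent ℂ (fun i => fun j => eval m (t i j))) {a : ℕ}
    (hq : min r a + 1 ≤ Fintype.card α) {f : MvPolynomial (α ⊕ μ) ℂ} (hfa : zc a f = f)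
    (hf : ∀ m z, m ≠ 0 → (∀ i, eval (Sum.elim m z) (TT (t i)) = 0) →
      eval (Sum.elim m z) f = 0) : f ∈ JT t := by
  rw [← H79.Hart.PT.JB_empty]
  exact (PTa.claim r a t hli ∅ (by simpa using hq)).2 f hfa fun m z hm _ ht => hf m z hm ht

theorem T_nzd' {r : ℕ} (t : Fin r → μ → MvPolynomial α ℂ)
    (hli : ∀ m, m ≠ 0 → LinearIndependent ℂ (fun i => fun j => eval m (t i j))) {a : ℕ}
    (hq : min r a + 1 ≤ Fintype.card α) (c : α) {f : MvPolynomial (α ⊕ μ) ℂ} (hfa : zc a f = f)
    (hf : X (Sum.inl c) * f ∈ JT t) : f ∈ JT t := by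
  rw [← H79.Hart.PT.JB_empty] at hf ⊢
  exact (PTa.claim r a t hli ∅ (by simpa using hq)).1 c (by simp) f hfa hf

theorem T_nzd₂' {r : ℕ} (t : Fin r → μ → MvPolynomial α ℂ)
    (hli : ∀ m, m ≠ 0 → LinearIndependent ℂ (fun i => fun j => eval m (t i j))) {a : ℕ}
    (hq : min r a + 2 ≤ Fintype.card α) {b c : α} (hbc : b ≠ c) {f : MvPolynomial (α ⊕ μ) ℂ}
    (hfa : zc a f = f) (hf : X (Sum.inl c) * f ∈ JT t ⊔ Ideal.span {X (Sum.inl b)}) :
    f ∈ JT t ⊔ Ideal.span {X (Sum.inl b)} := by
  rw [← H79.Hart.PT.JB_singleton] at hf ⊢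
  exact (PTa.claim r a t hli {b} (by rw [Finset.card_singleton]; omega)).1 c
    (by simpa using hbc.symm) f hfa hf

end PT

end H79.Hart3
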